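import Pool.Agent.Helper1.Stab.Model
import Pool.Agent.Helper68.Stab.Unstable
import Pool.Agent.Helper9.Stab.Comm

/-! The homotopy from `W ⊕ x` to `x ⊕ W`. -/

open CategoryTheory Topology Filter Set Opposite

noncomputable section

namespace Pool.Agent.Helper1.Stab

/-- PACKET PW3a. Permutation matrices are connected to `1` in the unitary group. The set of the `σ`
for which this is true is closed under products (`Joined`, product of paths) and contains `1`, so
by `Equiv.Perm.swap_induction_on` it is enough to treat a transposition `(i j)`. Its matrix is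
`1 - 2 P` with the self-adjoint idempotent `P = (E_ii + E_jj - E_ij - E_ji) / 2`, and
`t ↦ 1 + (exp (π i t) - 1) P` is a path of unitary matrices: with `c = exp (π i t) - 1`,
`(1 + c P)(1 + c̄ P) = 1 + (c + c̄ + c c̄) P = 1 + (|1 + c|² - 1) P = 1`. -/
theorem exists_unitary_path (n : ℕ) (σ : Equiv.Perm (Fin n)) :
    ∃ u : C(unitInterval, Matrix (Fin n) (Fin n) ℂ),
      (∀ t, u t ∈ Matrix.unitaryGroup (Fin n) ℂ) ∧ u 0 = 1 ∧
      ∀ i j, u 1 i j = if i = σ j then 1 else 0 := by
  induction σ using Equiv.Perm.swap_induction_on with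
  | one =>
    refine ⟨⟨fun _ => 1, continuous_const⟩, fun _ => one_mem _, rfl, fun i j => ?_⟩
    show (1 : Matrix (Fin n) (Fin n) ℂ) i j = _
    rw [Matrix.one_apply]
    rfl
  | swap_mul f x y hxy ih =>
    obtain ⟨v, hv, hv0, hv1⟩ := ih
    have hc : Continuous fun t : unitInterval => rotM x y (zpath t) := by
      refine continuous_matrix fun a b => ?_
      simp only [rotM]
      have hz : Continuous fun t : unitInterval => zpath t := zpath_cont
      exact continuous_const.add (((hz.sub continuous_const).div_const 2).mul continuous_const)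
    refine ⟨⟨fun t => rotM x y (zpath t) * v t, hc.matrix_mul v.continuous⟩, fun t => ?_, ?_,
      fun i j => ?_⟩
    · exact mul_mem (rotM_unitary hxy _ (zpath_star t)) (hv t)
    · show rotM x y (zpath (0 : unitInterval)) * v 0 = 1
      rw [zpath_zero, rotM_one, hv0, one_mul]
    · show (rotM x y (zpath (1 : unitInterval)) * v 1) i j = _
      rw [zpath_one, Matrix.mul_apply]
      simp only [rotM_neg_one hxy, hv1]
      rw [Finset.sum_eq_single (f j)]
      · rw [if_pos rfl, mul_one]
        have h : (Equiv.swap x y i = f j) ↔ (i = (Equiv.swap x y * f) j) := by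
          rw [Equiv.Perm.mul_apply]
          constructor
          · intro h
            rw [← h, Equiv.swap_apply_self]
          · intro h
            rw [h]
            simp
        simp only [h]
      · intro b _ hb
        rw [if_neg hb, mul_zero]
      · intro h
        exact absurd (Finset.mem_univ _) h

/-- PACKET PW3b (may assume PW3a). Let `N = k + l`, `u` a path for the permutation `π` of `Fin (2N)`,
`v` a path for a permutation `τ` of `Fin N`.  For frames `A ∈ Frame k`, `B ∈ Frame l` put
`C_t (A, B) i j = ∑ i' < 2N, ∑ j' < N, u_t i i' (A ⊕ B) i' j' v_t j' j` for `i < 2N`, `j < N` and the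
standard matrix otherwise: a frame of size `N` (`(u M v)^* (u M v) = v^* M^* M v = 1`; for `i ≥ 2N`,
`j < N` and for `j ≥ N` it is standard), continuous in `(t, A, B)`.
For `A' = A g`, `B' = B h`: `C_t (A', B') = C_t (A, B) (v_t^* (g ⊕ h) v_t)`, and the determinant of the
last matrix is `det g * det h ∈ D` (`D` is `univ` or `{1}`), so the class in `BG D` of `C_t (A, B)` only
depends on the classes `[A] ∈ Gr D k`, `[B] ∈ Gr D l`; continuity on `I × (Gr D k × Gr D l)`:
`id × (q × q)` is an open quotient map (`isOpenQuotientMap_gr`, `IsOpenQuotientMap.prodMap`).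
`t = 0`: `C_0 (A, B) = A ⊕ B` (`Frame.sum`).  `t = 1`: `B ⊕ A` is obtained from `A ⊕ B` by permuting the rows
and the columns: `(B ⊕ A) i j = (A ⊕ B) (π⁻¹ i) (τ j)` with `π⁻¹ i = i + 2k` for `i < 2l`, `i - 2l` for
`2l ≤ i < 2N`; `τ j = j + k` for `j < l`, `j - l` for `l ≤ j < N`. Both `B ⊕ A : Frame (l + k)` and
`C_1 (A, B) : Frame (k + l)` are the same infinite matrix; equality in `BG D` of the classes of the same
matrix at the sizes `k + l = l + k` is a cast (`Sigma` extensionality). -/
theorem exists_comm_homotopy {D : Set ℂ} (hD : GoodD D) (k l : ℕ) :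
    ∃ C : C(unitInterval × (Gr D k × Gr D l), BG D),
      (∀ A B, C (0, (A, B)) = act D k (A, toBG D l B)) ∧
      ∀ A B, C (1, (A, B)) = act D l (B, toBG D k A) :=
  Helper9.Stab.comm_homotopy exists_unitary_path D k l

end Pool.Agent.Helper1.Stab
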