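import Pool.Agent.Helper60.Stab.Diff
import Pool.Agent.Helper68.Stab.Unstable
import Pool.Agent.Helper33.Stab.PinchW

/-! Additivity of the difference maps of loops. -/

open CategoryTheory Topology Filter Set Opposite

noncomputable section

namespace Pool.Agent.Helper1.Stab

/-- `ℝ^e → I^e`, the inner cube of `squash r` is stretched to `I^e` -/
def strR {e : ℕ} (r : Fin e → ℝ) : Fin e → unitInterval := fun i =>
  Set.projIcc 0 1 zero_le_one (2 * (squash (r i) : ℝ) - 1 / 2)

/-- `∏ min(1, 4 s_i, 4(1 - s_i))`, `s_i = squash (r i)` -/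
def cutR {e : ℕ} (r : Fin e → ℝ) : ℝ :=
  ∏ i : Fin e, min 1 (min (4 * (squash (r i) : ℝ)) (4 * (1 - (squash (r i) : ℝ))))

theorem continuous_squash60 : Continuous squash := by
  refine Continuous.subtype_mk ?_ _
  refine (continuous_const.add (continuous_id.div (continuous_const.add continuous_abs) ?_)).div_const 2
  intro x
  have : 0 ≤ |x| := abs_nonneg x
  change (1 : ℝ) + |x| ≠ 0
  positivity

theorem continuous_sqi60 {e : ℕ} (i : Fin e) :
    Continuous fun r : Fin e → ℝ => (squash (r i) : ℝ) :=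
  continuous_subtype_val.comp (continuous_squash60.comp (continuous_apply i))

theorem continuous_strR {e : ℕ} : Continuous (strR (e := e)) := by
  refine continuous_pi fun i => continuous_projIcc.comp ?_
  exact (continuous_const.mul (continuous_sqi60 i)).sub continuous_const

theorem continuous_cutR {e : ℕ} : Continuous (cutR (e := e)) := by
  refine continuous_finsetProd _ fun i _ => ?_
  exact continuous_const.min ((continuous_const.mul (continuous_sqi60 i)).min
    (continuous_const.mul (continuous_const.sub (continuous_sqi60 i))))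

/-- Outside of the inner cube the stretched point is in the boundary. -/
theorem strR_bd {e : ℕ} {r : Fin e → ℝ} (h : cutR r ≠ 1) : strR r ∈ Cube.boundary (Fin e) := by
  by_contra hb
  apply h
  unfold cutR
  refine Finset.prod_eq_one fun i _ => ?_
  have h2 : ¬ (strR r i = 0 ∨ strR r i = 1) := fun h3 => hb ⟨i, h3⟩
  rw [not_or] at h2
  have h3 : 1 / 4 < (squash (r i) : ℝ) := by
    by_contra h4
    apply h2.1
    exact Set.projIcc_of_le_left _ (by push Not at h4; linarith)
  have h4 : (squash (r i) : ℝ) < 3 / 4 := by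
    by_contra h5
    apply h2.2
    exact Set.projIcc_of_right_le _ (by push Not at h5; linarith)
  rw [min_eq_left]
  rw [le_min_iff]
  constructor <;> linarith

theorem cutR_factor60 {e : ℕ} (r : Fin e → ℝ) (i : Fin e) :
    0 ≤ min 1 (min (4 * (squash (r i) : ℝ)) (4 * (1 - (squash (r i) : ℝ)))) ∧
    min 1 (min (4 * (squash (r i) : ℝ)) (4 * (1 - (squash (r i) : ℝ)))) ≤ 1 := by
  have h0 := (squash (r i)).2.1
  have h1 := (squash (r i)).2.2
  refine ⟨le_min zero_le_one (le_min (by linarith) (by linarith)), min_le_left _ _⟩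

/-- Properties of the cut-off function. -/
theorem cutR_props {e : ℕ} : (∀ r : Fin e → ℝ, 0 ≤ cutR r ∧ cutR r ≤ 1) ∧
    Tendsto (cutR (e := e)) (cocompact (Fin e → ℝ)) (𝓝 0) := by
  have hb : ∀ r : Fin e → ℝ, 0 ≤ cutR r ∧ cutR r ≤ 1 := fun r =>
    ⟨Finset.prod_nonneg fun i _ => (cutR_factor60 r i).1,
      Finset.prod_le_one (fun i _ => (cutR_factor60 r i).1) fun i _ => (cutR_factor60 r i).2⟩
  refine ⟨hb, ?_⟩
  rw [Metric.tendsto_nhds]
  intro ε hε
  refine mem_cocompact.2 ⟨Metric.closedBall (0 : Fin e → ℝ) (1 / (ε / 4)),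
    isCompact_closedBall _ _, ?_⟩
  intro r hr
  change Dist.dist (cutR r) 0 < ε
  rw [Real.dist_eq, sub_zero, abs_of_nonneg (hb r).1]
  by_contra hlt
  push Not at hlt
  apply hr
  rw [mem_closedBall_zero_iff, pi_norm_le_iff_of_nonneg (by positivity)]
  intro i
  have h1 : cutR r ≤ min 1 (min (4 * (squash (r i) : ℝ)) (4 * (1 - (squash (r i) : ℝ)))) := by
    unfold cutR
    rw [← Finset.mul_prod_erase Finset.univ _ (Finset.mem_univ i)]
    refine mul_le_of_le_one_right (cutR_factor60 r i).1 ?_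
    exact Finset.prod_le_one (fun i _ => (cutR_factor60 r i).1) fun i _ => (cutR_factor60 r i).2
  have h2 := hlt.trans (h1.trans (min_le_right _ _))
  have h3 := h2.trans (min_le_left _ _)
  have h4 := h2.trans (min_le_right _ _)
  rw [Real.norm_eq_abs]
  exact squash_bound60 (by linarith) (by linarith) (by linarith)

/-- The data of a loop `α` in `X` acting by `a : L × X → Z`, `L` compact:
`F1 (r, x) = a (x, α (strR r))`, `F0 (r, x) = a (x, x0)`. -/
def loopDif {e : ℕ} {L : LC} [CompactSpace L] {X Z : Type} [TopologicalSpace X]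
    [TopologicalSpace Z] {x0 : X} (a : C(L × X, Z)) (α : GenLoop (Fin e) X x0) :
    Dif ((LC.rpow (Fin e)).prod L) Z where
  F1 := ⟨fun y => a (y.2, α (strR y.1)), a.continuous.comp (continuous_snd.prodMk
    (α.1.continuous.comp (continuous_strR.comp continuous_fst)))⟩
  F0 := ⟨fun y => a (y.2, x0), a.continuous.comp (continuous_snd.prodMk continuous_const)⟩
  ρ := ⟨fun y => cutR y.1, continuous_cutR.comp continuous_fst⟩
  nonneg := fun y => (cutR_props.1 y.1).1
  le_one := fun y => (cutR_props.1 y.1).2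
  vanish := by
    intro U hU
    obtain ⟨C, hC, h⟩ := mem_cocompact.1 (cutR_props.2 hU)
    refine mem_map.2 (mem_cocompact.2 ⟨C ×ˢ univ, hC.prod isCompact_univ, ?_⟩)
    rintro ⟨r, x⟩ hx
    exact h fun hr => hx ⟨hr, trivial⟩
  agree := fun y hy => congrArg (fun z => a (y.2, z)) (α.2 _ (strR_bd hy))
  S := a '' (univ ×ˢ insert x0 (range α))
  cpt := (isCompact_univ.prod ((isCompact_range α.1.continuous).insert x0)).image a.continuous
  mem1 := fun y => ⟨(y.2, α (strR y.1)), ⟨trivial, Or.inr (mem_range_self _)⟩, rfl⟩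
  mem0 := fun y => ⟨(y.2, x0), ⟨trivial, Or.inl rfl⟩, rfl⟩

variable {e : ℕ} {L : LC} [CompactSpace L] {X Z : Type} [TopologicalSpace X] [TopologicalSpace Z]
  {x0 : X} (a : C(L × X, Z))

/-- Homotopic loops give homotopic difference maps. -/
theorem loopDif_homotopic {α β : GenLoop (Fin e) X x0} (h : GenLoop.Homotopic α β) :
    (loopDif a α).E.Homotopic (loopDif a β).E := by
  obtain ⟨F⟩ := h
  refine Dif.homotopic_of (loopDif a α) (loopDif a β) (fun w => rfl)
    ⟨fun y => a (y.2.2, F (y.1, strR y.2.1)), a.continuous.comp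
      ((continuous_snd.comp continuous_snd).prodMk (F.continuous.comp (continuous_fst.prodMk
        (continuous_strR.comp (continuous_fst.comp continuous_snd)))))⟩
    ⟨fun y => a (y.2.2, x0), a.continuous.comp
      ((continuous_snd.comp continuous_snd).prodMk continuous_const)⟩
    (a '' (univ ×ˢ insert x0 (range F)))
    ((isCompact_univ.prod ((isCompact_range F.continuous).insert x0)).image a.continuous)
    (fun y => ⟨⟨(y.2.2, F (y.1, strR y.2.1)), ⟨trivial, Or.inr ⟨_, rfl⟩⟩, rfl⟩,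
      ⟨(y.2.2, x0), ⟨trivial, Or.inl rfl⟩, rfl⟩⟩) ?_ ?_ ?_ ?_ ?_
  · rintro ⟨r, x⟩
    change a (x, F (0, strR r)) = a (x, α (strR r))
    rw [F.apply_zero]
    rfl
  · rintro ⟨r, x⟩
    rfl
  · rintro ⟨r, x⟩
    change a (x, F (1, strR r)) = a (x, β (strR r))
    rw [F.apply_one]
    rfl
  · rintro ⟨r, x⟩
    rfl
  · rintro t ⟨r, x⟩ hr
    change a (x, F (t, strR r)) = a (x, x0)
    have hb : strR r ∈ Cube.boundary (Fin e) := strR_bd hr
    rw [F.eq_fst t hb]
    have h1 : α.1 (strR r) = x0 := α.2 _ hb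
    rw [h1]

/-! #### Additivity: auxiliary constructions -/

/-- `ℝ^(e+1) × L = ℝ × (ℝ^e × L)` -/
def splitW33 (e : ℕ) (L : LC) :
    ((LC.rpow (Fin (e + 1))).prod L) ≃ₜ LC.R.prod ((LC.rpow (Fin e)).prod L) where
  toFun w := (w.1 0, (fun i => w.1 i.succ, w.2))
  invFun v := (Fin.cons v.1 v.2.1, v.2.2)
  left_inv w := Prod.ext (funext fun i => by
    refine Fin.cases ?_ (fun j => ?_) i <;> rfl) rfl
  right_inv v := rfl
  continuous_toFun := ((continuous_apply 0).comp continuous_fst).prodMk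
    ((continuous_pi fun i => (continuous_apply i.succ).comp continuous_fst).prodMk continuous_snd)
  continuous_invFun := by
    refine Continuous.prodMk (continuous_pi fun i => ?_) (continuous_snd.comp continuous_snd)
    refine Fin.cases ?_ (fun j => ?_) i
    · exact continuous_fst
    · exact (continuous_apply j).comp (continuous_fst.comp continuous_snd)

/-- the pinch map in the first real coordinate -/
def pinchW33 (e : ℕ) (L : LC) : PMap ((LC.rpow (Fin (e + 1))).prod L)
    (((LC.rpow (Fin (e + 1))).prod L).sum ((LC.rpow (Fin (e + 1))).prod L)).plus :=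
  pinchAt33 (splitW33 e L)

/-- change of the first coordinate -/
def chg33 {e : ℕ} {L : LC} (w : (LC.rpow (Fin (e + 1))).prod L) : (LC.rpow (Fin (e + 1))).prod L :=
  (Fin.cons (w.1 0 - 1 / w.1 0) (fun i => w.1 i.succ), w.2)

theorem pinchW_neg33 {e : ℕ} {L : LC} {w : (LC.rpow (Fin (e + 1))).prod L} (h : w.1 0 < 0) :
    pinchW33 e L w = ((Sum.inl (chg33 w) : ((LC.rpow (Fin (e + 1))).prod L) ⊕
      ((LC.rpow (Fin (e + 1))).prod L)) : OnePoint _) := by
  change ((PMap.ofHomeo (K := LC.R.prod ((LC.rpow (Fin e)).prod L))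
      (L := (LC.rpow (Fin (e + 1))).prod L) (splitW33 e L).symm).sumMap
    (PMap.ofHomeo (K := LC.R.prod ((LC.rpow (Fin e)).prod L))
      (L := (LC.rpow (Fin (e + 1))).prod L) (splitW33 e L).symm)).plus
    ((PMap.ofHomeo (dist LC.R LC.R ((LC.rpow (Fin e)).prod L))).plus
      (smashPt (LC.R.sum LC.R) ((LC.rpow (Fin e)).prod L) (pinchRFun (w.1 0),
        (((fun i => w.1 i.succ, w.2) : (LC.rpow (Fin e)).prod L) : OnePoint _)))) = _
  unfold pinchRFun
  rw [if_pos h]
  rfl

theorem pinchW_pos33 {e : ℕ} {L : LC} {w : (LC.rpow (Fin (e + 1))).prod L} (h : 0 < w.1 0) :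
    pinchW33 e L w = ((Sum.inr (chg33 w) : ((LC.rpow (Fin (e + 1))).prod L) ⊕
      ((LC.rpow (Fin (e + 1))).prod L)) : OnePoint _) := by
  change ((PMap.ofHomeo (K := LC.R.prod ((LC.rpow (Fin e)).prod L))
      (L := (LC.rpow (Fin (e + 1))).prod L) (splitW33 e L).symm).sumMap
    (PMap.ofHomeo (K := LC.R.prod ((LC.rpow (Fin e)).prod L))
      (L := (LC.rpow (Fin (e + 1))).prod L) (splitW33 e L).symm)).plus
    ((PMap.ofHomeo (dist LC.R LC.R ((LC.rpow (Fin e)).prod L))).plus
      (smashPt (LC.R.sum LC.R) ((LC.rpow (Fin e)).prod L) (pinchRFun (w.1 0),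
        (((fun i => w.1 i.succ, w.2) : (LC.rpow (Fin e)).prod L) : OnePoint _)))) = _
  unfold pinchRFun
  rw [if_neg (not_lt.2 h.le), if_pos h]
  rfl

theorem pinchW_zero33 {e : ℕ} {L : LC} {w : (LC.rpow (Fin (e + 1))).prod L} (h : w.1 0 = 0) :
    pinchW33 e L w = OnePoint.infty := by
  change ((PMap.ofHomeo (K := LC.R.prod ((LC.rpow (Fin e)).prod L))
      (L := (LC.rpow (Fin (e + 1))).prod L) (splitW33 e L).symm).sumMap
    (PMap.ofHomeo (K := LC.R.prod ((LC.rpow (Fin e)).prod L))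
      (L := (LC.rpow (Fin (e + 1))).prod L) (splitW33 e L).symm)).plus
    ((PMap.ofHomeo (dist LC.R LC.R ((LC.rpow (Fin e)).prod L))).plus
      (smashPt (LC.R.sum LC.R) ((LC.rpow (Fin e)).prod L) (pinchRFun (w.1 0),
        (((fun i => w.1 i.succ, w.2) : (LC.rpow (Fin e)).prod L) : OnePoint _)))) = _
  unfold pinchRFun
  rw [h, if_neg (lt_irrefl _), if_neg (lt_irrefl _)]
  rfl

/-- the coordinate of `strR` -/
def cst33 (t : ℝ) : unitInterval := Set.projIcc 0 1 zero_le_one (2 * (squash t : ℝ) - 1 / 2)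

theorem strR_cons33 {e : ℕ} (t : ℝ) (r : Fin e → ℝ) :
    strR (Fin.cons t r : Fin (e + 1) → ℝ) = Fin.cons (cst33 t) (strR r) := by
  funext i
  refine Fin.cases ?_ (fun j => ?_) i <;> rfl

/-- `(t² - 1) / (|t| + |t² - 1|)` -/
def wv33 (t : ℝ) : ℝ := (t ^ 2 - 1) / (|t| + |t ^ 2 - 1|)

theorem wv_den33 (t : ℝ) : 0 < |t| + |t ^ 2 - 1| := by
  rcases eq_or_ne t 0 with h | h
  · rw [h]; norm_num
  · have := abs_pos.2 h
    have := abs_nonneg (t ^ 2 - 1)
    linarith

theorem continuous_wv33 : Continuous wv33 := by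
  unfold wv33
  exact Continuous.div (by fun_prop) (by fun_prop) fun t => (wv_den33 t).ne'

theorem cst_neg33 {t : ℝ} (h : t < 0) :
    cst33 (t - 1 / t) = Set.projIcc 0 1 zero_le_one (1 / 2 - wv33 t) := by
  unfold cst33
  congr 1
  have hs : ((squash (t - 1 / t) : unitInterval) : ℝ) =
    (1 + (t - 1 / t) / (1 + |t - 1 / t|)) / 2 := rfl
  have h1 : t - 1 / t = (t ^ 2 - 1) / t := by
    field_simp
  have h2 : |t - 1 / t| = |t ^ 2 - 1| / (-t) := by
    rw [h1, abs_div, abs_of_neg h]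
  have h3 : 0 < -t + |t ^ 2 - 1| := by
    have := wv_den33 t
    rwa [abs_of_neg h] at this
  have h4 : (t - 1 / t) / (1 + |t - 1 / t|) = - wv33 t := by
    rw [h2, h1]
    unfold wv33
    rw [abs_of_neg h]
    have : -t ≠ 0 := by linarith
    have h5 : (1 + |t ^ 2 - 1| / -t) = (-t + |t ^ 2 - 1|) / -t := by
      rw [eq_div_iff this, add_mul, one_mul, div_mul_cancel₀ _ this]
    rw [h5, div_div_eq_mul_div, ← neg_div]
    congr 1
    rw [mul_neg, div_mul_cancel₀ _ h.ne]
  rw [hs, h4]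
  ring

theorem cst_pos33 {t : ℝ} (h : 0 < t) :
    cst33 (t - 1 / t) = Set.projIcc 0 1 zero_le_one (1 / 2 + wv33 t) := by
  unfold cst33
  congr 1
  have hs : ((squash (t - 1 / t) : unitInterval) : ℝ) =
    (1 + (t - 1 / t) / (1 + |t - 1 / t|)) / 2 := rfl
  have h1 : t - 1 / t = (t ^ 2 - 1) / t := by
    field_simp
  have h2 : |t - 1 / t| = |t ^ 2 - 1| / t := by
    rw [h1, abs_div, abs_of_pos h]
  have h3 : 0 < t + |t ^ 2 - 1| := by
    have := wv_den33 t
    rwa [abs_of_pos h] at this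
  have h4 : (t - 1 / t) / (1 + |t - 1 / t|) = wv33 t := by
    rw [h2, h1]
    unfold wv33
    rw [abs_of_pos h]
    have h5 : (1 + |t ^ 2 - 1| / t) = (t + |t ^ 2 - 1|) / t := by
      field_simp
    rw [h5, div_div_eq_mul_div]
    congr 1
    field_simp
  rw [hs, h4]
  ring

/-- the new first coordinate, real version -/
def vR33 (t : ℝ) : ℝ := if t ≤ 0 then
    ((Set.projIcc 0 1 zero_le_one (1 / 2 - wv33 t) : unitInterval) : ℝ) / 2
  else 1 / 2 + ((Set.projIcc 0 1 zero_le_one (1 / 2 + wv33 t) : unitInterval) : ℝ) / 2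

theorem wv_zero33 : wv33 0 = -1 := by
  unfold wv33
  norm_num

theorem projIcc_one33 {x : ℝ} (h : 1 ≤ x) :
    Set.projIcc (0 : ℝ) 1 zero_le_one x = (1 : unitInterval) := Set.projIcc_of_right_le _ h

theorem projIcc_zero33 {x : ℝ} (h : x ≤ 0) :
    Set.projIcc (0 : ℝ) 1 zero_le_one x = (0 : unitInterval) := Set.projIcc_of_le_left _ h

theorem continuous_vR33 : Continuous vR33 := by
  unfold vR33
  refine Continuous.if_le ?_ ?_ continuous_id continuous_const ?_
  · exact (continuous_subtype_val.comp (continuous_projIcc.comp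
      (continuous_const.sub continuous_wv33))).div_const _
  · exact continuous_const.add ((continuous_subtype_val.comp (continuous_projIcc.comp
      (continuous_const.add continuous_wv33))).div_const _)
  · intro t ht
    have ht' : t = 0 := ht
    rw [ht', wv_zero33, projIcc_one33 (by norm_num), projIcc_zero33 (by norm_num)]
    norm_num

theorem vR_mem33 (t : ℝ) : 0 ≤ vR33 t ∧ vR33 t ≤ 1 := by
  unfold vR33
  have h1 := (Set.projIcc (0 : ℝ) 1 zero_le_one (1 / 2 - wv33 t)).2
  have h2 := (Set.projIcc (0 : ℝ) 1 zero_le_one (1 / 2 + wv33 t)).2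
  split_ifs
  · constructor
    · linarith [h1.1]
    · linarith [h1.2]
  · constructor
    · linarith [h2.1]
    · linarith [h2.2]

/-- the new first coordinate -/
def v33 (t : ℝ) : unitInterval := ⟨vR33 t, vR_mem33 t⟩

theorem continuous_v33 : Continuous v33 := continuous_vR33.subtype_mk _

theorem v_neg33 {t : ℝ} (h : t < 0) : ((v33 t : unitInterval) : ℝ) =
    ((cst33 (t - 1 / t) : unitInterval) : ℝ) / 2 := by
  rw [cst_neg33 h]
  exact if_pos h.le

theorem v_pos33 {t : ℝ} (h : 0 < t) : ((v33 t : unitInterval) : ℝ) =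
    1 / 2 + ((cst33 (t - 1 / t) : unitInterval) : ℝ) / 2 := by
  rw [cst_pos33 h]
  exact if_neg (not_le.2 h)

theorem v_zero33 : ((v33 0 : unitInterval) : ℝ) = 1 / 2 := by
  change vR33 0 = 1 / 2
  unfold vR33
  rw [if_pos (le_refl _), wv_zero33, projIcc_one33 (by norm_num)]
  norm_num

theorem cst_low33 {t : ℝ} (h : t ≤ -1) : cst33 t = 0 := by
  unfold cst33
  apply projIcc_zero33
  have hs : ((squash t : unitInterval) : ℝ) = (1 + t / (1 + |t|)) / 2 := rfl
  have h1 : t / (1 + |t|) ≤ -(1 / 2) := by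
    rw [abs_of_neg (by linarith), div_le_iff₀ (by linarith)]
    linarith
  rw [hs]
  linarith

theorem cst_high33 {t : ℝ} (h : 1 ≤ t) : cst33 t = 1 := by
  unfold cst33
  apply projIcc_one33
  have hs : ((squash t : unitInterval) : ℝ) = (1 + t / (1 + |t|)) / 2 := rfl
  have h1 : 1 / 2 ≤ t / (1 + |t|) := by
    rw [abs_of_pos (by linarith), le_div_iff₀ (by linarith)]
    linarith
  rw [hs]
  linarith

theorem v_low33 {t : ℝ} (h : t ≤ -2) : v33 t = 0 := by
  apply Subtype.ext
  rw [v_neg33 (by linarith), cst_low33]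
  · simp
  · have h1 : 1 / (-t) ≤ 1 / 2 := one_div_le_one_div_of_le (by norm_num) (by linarith)
    rw [one_div_neg_eq_neg_one_div] at h1
    linarith

theorem v_high33 {t : ℝ} (h : 2 ≤ t) : v33 t = 1 := by
  apply Subtype.ext
  rw [v_pos33 (by linarith), cst_high33]
  · norm_num
  · have h1 : 1 / t ≤ 1 / 2 := one_div_le_one_div_of_le (by norm_num) h
    linarith


theorem boundary_zero33 {n : Type} {i : n} {y : n → unitInterval} (h : y i = 0) :
    y ∈ Cube.boundary n := ⟨i, Or.inl h⟩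

theorem boundary_one33 {n : Type} {i : n} {y : n → unitInterval} (h : y i = 1) :
    y ∈ Cube.boundary n := ⟨i, Or.inr h⟩

section

variable {e : ℕ} {X : Type} [TopologicalSpace X] {x0 : X}

theorem trans_apply33 (α β : GenLoop (Fin (e + 1)) X x0) (s : unitInterval)
    (u : Fin e → unitInterval) :
    GenLoop.transAt 0 α β (Fin.cons s u : Fin (e + 1) → unitInterval) =
      if (s : ℝ) ≤ 1 / 2 then α (Fin.cons (Set.projIcc 0 1 zero_le_one (2 * (s : ℝ))) u :
        Fin (e + 1) → unitInterval)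
      else β (Fin.cons (Set.projIcc 0 1 zero_le_one (2 * (s : ℝ) - 1)) u :
        Fin (e + 1) → unitInterval) := by
  change (if (((Fin.cons s u : Fin (e + 1) → unitInterval) 0 : unitInterval) : ℝ) ≤ 1 / 2 then
    α (Function.update (Fin.cons s u : Fin (e + 1) → unitInterval) 0 (Set.projIcc 0 1 zero_le_one
      (2 * (((Fin.cons s u : Fin (e + 1) → unitInterval) 0 : unitInterval) : ℝ))))
    else β (Function.update (Fin.cons s u : Fin (e + 1) → unitInterval) 0
      (Set.projIcc 0 1 zero_le_one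
      (2 * (((Fin.cons s u : Fin (e + 1) → unitInterval) 0 : unitInterval) : ℝ) - 1)))) = _
  rw [Fin.cons_zero, Fin.update_cons_zero, Fin.update_cons_zero]

theorem trans_neg33 (α β : GenLoop (Fin (e + 1)) X x0) {t : ℝ} (h : t < 0)
    (u : Fin e → unitInterval) :
    GenLoop.transAt 0 α β (Fin.cons (v33 t) u : Fin (e + 1) → unitInterval) =
      α (Fin.cons (cst33 (t - 1 / t)) u : Fin (e + 1) → unitInterval) := by
  rw [trans_apply33, v_neg33 h]
  have h1 := (cst33 (t - 1 / t)).2.2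
  rw [if_pos (by linarith), mul_div_cancel₀ _ (by norm_num : (2 : ℝ) ≠ 0), Set.projIcc_val]

theorem trans_pos33 (α β : GenLoop (Fin (e + 1)) X x0) {t : ℝ} (h : 0 < t)
    (u : Fin e → unitInterval) :
    GenLoop.transAt 0 α β (Fin.cons (v33 t) u : Fin (e + 1) → unitInterval) =
      β (Fin.cons (cst33 (t - 1 / t)) u : Fin (e + 1) → unitInterval) := by
  rw [trans_apply33, v_pos33 h]
  have h1 := (cst33 (t - 1 / t)).2.1
  have e1 : 2 * (1 / 2 + ((cst33 (t - 1 / t) : unitInterval) : ℝ) / 2) - 1 =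
    ((cst33 (t - 1 / t) : unitInterval) : ℝ) := by ring
  by_cases h2 : ((cst33 (t - 1 / t) : unitInterval) : ℝ) = 0
  · have h3 : cst33 (t - 1 / t) = 0 := Subtype.ext h2
    rw [if_pos (by rw [h2]; norm_num), h3]
    have hb : β (Fin.cons 0 u : Fin (e + 1) → unitInterval) = x0 :=
      β.2 _ (boundary_zero33 (i := 0) (Fin.cons_zero _ _))
    rw [hb]
    refine α.2 _ (boundary_one33 (i := 0) ?_)
    rw [Fin.cons_zero]
    apply projIcc_one33
    simp
  · rw [if_neg, e1, Set.projIcc_val]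
    intro h3
    apply h2
    linarith

theorem trans_zero33 (α β : GenLoop (Fin (e + 1)) X x0) (u : Fin e → unitInterval) :
    GenLoop.transAt 0 α β (Fin.cons (v33 0) u : Fin (e + 1) → unitInterval) = x0 := by
  rw [trans_apply33, v_zero33, if_pos (le_refl _)]
  refine α.2 _ (boundary_one33 (i := 0) ?_)
  rw [Fin.cons_zero]
  apply projIcc_one33
  norm_num

end

/-- the new map `ℝ^(e+1) → I^(e+1)` -/
def s33 {e : ℕ} (r : Fin (e + 1) → ℝ) : Fin (e + 1) → unitInterval :=
  Fin.cons (v33 (r 0)) (fun i => strR r i.succ)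

theorem continuous_s33 {e : ℕ} : Continuous (s33 (e := e)) := by
  refine continuous_pi fun i => ?_
  refine Fin.cases ?_ (fun j => ?_) i
  · exact continuous_v33.comp (continuous_apply 0)
  · change Continuous fun r : Fin (e + 1) → ℝ => strR r j.succ
    exact (continuous_apply j.succ).comp continuous_strR

/-- the cut-off function -/
def kap33 {e : ℕ} (r : Fin e → ℝ) : ℝ := ∏ i : Fin e, min 1 (max 0 (3 - |r i|))

theorem continuous_kap33 {e : ℕ} : Continuous (kap33 (e := e)) := by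
  unfold kap33
  fun_prop

theorem kap_mem33 {e : ℕ} (r : Fin e → ℝ) : 0 ≤ kap33 r ∧ kap33 r ≤ 1 := by
  have h : ∀ i, 0 ≤ min 1 (max 0 (3 - |r i|)) := fun i => le_min zero_le_one (le_max_left _ _)
  exact ⟨Finset.prod_nonneg fun i _ => h i,
    Finset.prod_le_one (fun i _ => h i) fun i _ => min_le_left _ _⟩

theorem kap_ne33 {e : ℕ} {r : Fin e → ℝ} (h : kap33 r ≠ 1) : ∃ i, 2 < |r i| := by
  by_contra hc
  push Not at hc
  apply h
  unfold kap33
  refine Finset.prod_eq_one fun i _ => ?_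
  have := hc i
  rw [max_eq_right (by linarith), min_eq_left (by linarith)]

theorem kap_supp33 {e : ℕ} {r : Fin e → ℝ} (h : r ∉ Set.pi univ (fun _ : Fin e => Icc (-3 : ℝ) 3)) :
    kap33 r = 0 := by
  rw [Set.mem_univ_pi] at h
  push Not at h
  obtain ⟨i, hi⟩ := h
  unfold kap33
  refine Finset.prod_eq_zero (Finset.mem_univ i) ?_
  have : 3 < |r i| := by
    by_contra hc
    exact hi (abs_le.1 (not_lt.1 hc))
  rw [max_eq_left (by linarith), min_eq_right zero_le_one]

/-- values of `strR` and `s33` where `kap33` is not `1` -/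
theorem kap_str33 {e : ℕ} {r : Fin (e + 1) → ℝ} (h : kap33 r ≠ 1) :
    ∃ i, (strR r i = 0 ∧ s33 r i = 0) ∨ (strR r i = 1 ∧ s33 r i = 1) := by
  obtain ⟨i, hi⟩ := kap_ne33 h
  refine ⟨i, ?_⟩
  rcases lt_abs.1 hi with h1 | h1
  · right
    have h2 : strR r i = 1 := cst_high33 (by linarith)
    refine ⟨h2, ?_⟩
    revert h1 h2
    refine Fin.cases ?_ (fun j => ?_) i
    · intro h1 _
      exact v_high33 h1.le
    · intro _ h2
      exact h2
  · left
    have h2 : strR r i = 0 := cst_low33 (by linarith)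
    refine ⟨h2, ?_⟩
    revert h1 h2
    refine Fin.cases ?_ (fun j => ?_) i
    · intro h1 _
      exact v_low33 (by linarith)
    · intro _ h2
      exact h2

/-- the homotopy from `strR` to `s33` -/
def sH33 {e : ℕ} (x : unitInterval × (Fin (e + 1) → ℝ)) : Fin (e + 1) → unitInterval := fun i =>
  Set.projIcc 0 1 zero_le_one ((1 - (x.1 : ℝ)) * (strR x.2 i : ℝ) + (x.1 : ℝ) * (s33 x.2 i : ℝ))

theorem continuous_sH33 {e : ℕ} : Continuous (sH33 (e := e)) := by
  refine continuous_pi fun i => continuous_projIcc.comp ?_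
  have h0 : Continuous fun x : unitInterval × (Fin (e + 1) → ℝ) => (x.1 : ℝ) :=
    continuous_subtype_val.comp continuous_fst
  have h1 : Continuous fun x : unitInterval × (Fin (e + 1) → ℝ) => (strR x.2 i : ℝ) :=
    continuous_subtype_val.comp ((continuous_apply i).comp (continuous_strR.comp continuous_snd))
  have h2 : Continuous fun x : unitInterval × (Fin (e + 1) → ℝ) => (s33 x.2 i : ℝ) :=
    continuous_subtype_val.comp ((continuous_apply i).comp (continuous_s33.comp continuous_snd))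
  exact ((continuous_const.sub h0).mul h1).add (h0.mul h2)

theorem sH_zero33 {e : ℕ} (r : Fin (e + 1) → ℝ) : sH33 ((0 : unitInterval), r) = strR r := by
  funext i
  unfold sH33
  have : (1 - (((0 : unitInterval), r).1 : ℝ)) * (strR ((0 : unitInterval), r).2 i : ℝ) +
    (((0 : unitInterval), r).1 : ℝ) * (s33 ((0 : unitInterval), r).2 i : ℝ) = (strR r i : ℝ) := by
    simp
  rw [this, Set.projIcc_val]

theorem sH_one33 {e : ℕ} (r : Fin (e + 1) → ℝ) : sH33 ((1 : unitInterval), r) = s33 r := by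
  funext i
  unfold sH33
  have : (1 - (((1 : unitInterval), r).1 : ℝ)) * (strR ((1 : unitInterval), r).2 i : ℝ) +
    (((1 : unitInterval), r).1 : ℝ) * (s33 ((1 : unitInterval), r).2 i : ℝ) = (s33 r i : ℝ) := by
    simp
  rw [this, Set.projIcc_val]

theorem sH_bd33 {e : ℕ} {r : Fin (e + 1) → ℝ} (h : kap33 r ≠ 1) (t : unitInterval) :
    sH33 (t, r) ∈ Cube.boundary (Fin (e + 1)) := by
  obtain ⟨i, ⟨h1, h2⟩ | ⟨h1, h2⟩⟩ := kap_str33 h
  · refine boundary_zero33 (i := i) ?_
    unfold sH33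
    apply projIcc_zero33
    simp only [h1, h2]
    simp
  · refine boundary_one33 (i := i) ?_
    unfold sH33
    apply projIcc_one33
    simp only [h1, h2]
    simp

section

variable {e : ℕ} {L : LC} [CompactSpace L] {X Z : Type} [TopologicalSpace X] [TopologicalSpace Z]
  {x0 : X} (a : C(L × X, Z))

/-- The data given by a loop `γ` and a map `s : ℝ^(e+1) → I^(e+1)`. -/
def sDif33 (γ : GenLoop (Fin (e + 1)) X x0) (s : (Fin (e + 1) → ℝ) → Fin (e + 1) → unitInterval)
    (hs : Continuous s) (ρ : C((LC.rpow (Fin (e + 1))).prod L, ℝ)) (h0 : ∀ w, 0 ≤ ρ w)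
    (h1 : ∀ w, ρ w ≤ 1) (hv : Tendsto ρ (cocompact ((LC.rpow (Fin (e + 1))).prod L)) (𝓝 0))
    (ha : ∀ w : (LC.rpow (Fin (e + 1))).prod L, ρ w ≠ 1 → γ (s w.1) = x0) :
    Dif ((LC.rpow (Fin (e + 1))).prod L) Z where
  F1 := ⟨fun y => a (y.2, γ (s y.1)), a.continuous.comp (continuous_snd.prodMk
    (γ.1.continuous.comp (hs.comp continuous_fst)))⟩
  F0 := ⟨fun y => a (y.2, x0), a.continuous.comp (continuous_snd.prodMk continuous_const)⟩
  ρ := ρ
  nonneg := h0
  le_one := h1
  vanish := hv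
  agree := fun y hy => congrArg (fun z => a (y.2, z)) (ha y hy)
  S := a '' (univ ×ˢ insert x0 (range γ))
  cpt := (isCompact_univ.prod ((isCompact_range γ.1.continuous).insert x0)).image a.continuous
  mem1 := fun y => ⟨(y.2, γ (s y.1)), ⟨trivial, Or.inr (mem_range_self _)⟩, rfl⟩
  mem0 := fun y => ⟨(y.2, x0), ⟨trivial, Or.inl rfl⟩, rfl⟩

/-- the cut-off function `kap33` on `ℝ^(e+1) × L` -/
def kapW33 (e : ℕ) (L : LC) : C((LC.rpow (Fin (e + 1))).prod L, ℝ) :=
  ⟨fun w => kap33 w.1, continuous_kap33.comp continuous_fst⟩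

theorem kapW_vanish33 : Tendsto (kapW33 e L) (cocompact ((LC.rpow (Fin (e + 1))).prod L)) (𝓝 0) := by
  have hC : IsCompact (Set.pi univ (fun _ : Fin (e + 1) => Icc (-3 : ℝ) 3)) :=
    isCompact_univ_pi fun _ => isCompact_Icc
  refine tendsto_nhds_of_eventually_eq ?_
  filter_upwards [(hC.prod (isCompact_univ (X := L))).compl_mem_cocompact] with w hw
  exact kap_supp33 fun h => hw ⟨h, trivial⟩

/-- the cut-off function `cutR` as a pointed map -/
def cutP33 (e : ℕ) (L : LC) [CompactSpace L] : PMap ((LC.rpow (Fin (e + 1))).prod L) ⟨ℝ, 0⟩ where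
  toFun := fun w => cutR w.1
  cont := continuous_cutR.comp continuous_fst
  infty := by
    intro U hU
    obtain ⟨C, hC, h⟩ := mem_cocompact.1 (cutR_props.2 hU)
    refine mem_map.2 (mem_cocompact.2 ⟨C ×ˢ univ, hC.prod isCompact_univ, ?_⟩)
    rintro ⟨r, x⟩ hx
    exact h fun hr => hx ⟨hr, trivial⟩

/-- the cut-off function of the sum -/
def cut2P33 (e : ℕ) (L : LC) [CompactSpace L] : PMap ((LC.rpow (Fin (e + 1))).prod L) ⟨ℝ, 0⟩ :=
  ((cutP33 e L).copair (cutP33 e L)).comp (pinchW33 e L)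

theorem cut2_neg33 {w : (LC.rpow (Fin (e + 1))).prod L} (h : w.1 0 < 0) :
    cut2P33 e L w = cutR (chg33 w).1 := by
  change ((cutP33 e L).copair (cutP33 e L)).plus (pinchW33 e L w) = _
  rw [pinchW_neg33 h]
  rfl

theorem cut2_pos33 {w : (LC.rpow (Fin (e + 1))).prod L} (h : 0 < w.1 0) :
    cut2P33 e L w = cutR (chg33 w).1 := by
  change ((cutP33 e L).copair (cutP33 e L)).plus (pinchW33 e L w) = _
  rw [pinchW_pos33 h]
  rfl

theorem cut2_zero33 {w : (LC.rpow (Fin (e + 1))).prod L} (h : w.1 0 = 0) :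
    cut2P33 e L w = (0 : ℝ) := by
  change ((cutP33 e L).copair (cutP33 e L)).plus (pinchW33 e L w) = _
  rw [pinchW_zero33 h]
  rfl

theorem cut2_mem33 (w : (LC.rpow (Fin (e + 1))).prod L) :
    (0 : ℝ) ≤ cut2P33 e L w ∧ cut2P33 e L w ≤ (1 : ℝ) := by
  rcases lt_trichotomy (w.1 0) 0 with h | h | h
  · rw [cut2_neg33 h]
    exact cutR_props.1 _
  · rw [cut2_zero33 h]
    exact ⟨le_refl _, zero_le_one⟩
  · rw [cut2_pos33 h]
    exact cutR_props.1 _

theorem str_chg33 (w : (LC.rpow (Fin (e + 1))).prod L) :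
    strR (chg33 w).1 = (Fin.cons (cst33 (w.1 0 - 1 / w.1 0)) (fun i => strR w.1 i.succ) :
      Fin (e + 1) → unitInterval) := strR_cons33 _ _

theorem s_neg33 (α β : GenLoop (Fin (e + 1)) X x0) {w : (LC.rpow (Fin (e + 1))).prod L}
    (h : w.1 0 < 0) : GenLoop.transAt 0 α β (s33 w.1) = α (strR (chg33 w).1) := by
  rw [str_chg33]
  exact trans_neg33 α β h _

theorem s_pos33 (α β : GenLoop (Fin (e + 1)) X x0) {w : (LC.rpow (Fin (e + 1))).prod L}
    (h : 0 < w.1 0) : GenLoop.transAt 0 α β (s33 w.1) = β (strR (chg33 w).1) := by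
  rw [str_chg33]
  exact trans_pos33 α β h _

theorem s_zero33 (α β : GenLoop (Fin (e + 1)) X x0) {w : (LC.rpow (Fin (e + 1))).prod L}
    (h : w.1 0 = 0) : GenLoop.transAt 0 α β (s33 w.1) = x0 := by
  have h1 := trans_zero33 α β (fun i => strR w.1 i.succ)
  rw [← h] at h1
  exact h1

end

/-- PACKET PW5d (the main one; may assume `pinchR_unit_left`, `pinchR_unit_right` of
`Helper68/Stab/Unstable.lean`). Write `s(t) = squash t`, `c(t) = projIcc (2 s(t) - 1/2)`, so
`strR r = (c (r_j))_j`, and `W = ℝ^(e+1) × L`.  `p : W → W ⊔ W` is the pinch map in the coordinate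
`r_0`: `pinchRFun` in this coordinate (`(pinchRK _)` of Unstable.lean conjugated with the
homeomorphism `ℝ^(e+1) × L ≃ ℝ × (ℝ^e × L)`).
(1) `op2` of `m = ldist ∘ (id_ℂ × p)` (`ldist` in Unstable.lean) on `[ℂ × W, Z']` is the addition:
`IsAddFun.op2_eq_add`; the unit laws of `m` follow from those of `pinchR` (`PMap.Homotopic.box`,
conjugation with homeomorphisms); `m3` is an equality of functions (check the cases
`re z < 0, = 0, > 0` and `r_0 < 0, = 0, > 0`).  So for `A, B : Dif W Z` :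
`zadd [A.E] [B.E] = [(A.E.copair B.E).comp m]` (as in `add_cls` in `RepF.lean`).
(2) `((loopDif a α).E.copair (loopDif a β).E).comp m` is the `E` of the following `Dif`:
for `r_0 < 0`: `F1 (r, x) = a (x, α (c (r_0 - 1/r_0), c (r_j))_j)`, for `r_0 > 0` the same with `β`, for
`r_0 = 0`: `a (x, x0)`; `ρ (r, x) = cutR (r_0 - 1/r_0, r_j)` for `r_0 ≠ 0` and `0` for `r_0 = 0`.
`F1` is `a (x, γ (v (r_0), c (r_j)))` with `γ = transAt 0 α β` and `v (t) = c (t - 1/t) / 2` for `t < 0`,
`1/2` for `t = 0`, `1/2 + c (t - 1/t) / 2` for `t > 0` (continuous, as `c (t - 1/t)` is constant `1`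
for `t < 0` near `0`, and `0` for `t > 0` near `0`).
(3) `v_τ = (1 - τ) c + τ v : ℝ → [0,1]` is `0` for `t ≤ -R` and `1` for `t ≥ R` (`R = 100`).
`H1 (τ, (r, x)) = a (x, γ (v_τ (r_0), c (r_j)))`, `H0 = a (x, x0)`; they agree outside of
`{|r_j| ≤ R for all j}` (then a coordinate is `0` or `1`).  Let `κ (r) = ∏_j min 1 (max 0 (R + 1 - |r_j|))`.
`Dif.homotopic_cutoff` (`cutR` to `κ` at `τ = 0`), `Dif.homotopic_of` (with `κ`), `Dif.homotopic_cutoff`
(`κ` to the `ρ` of (2) at `τ = 1`) give the result. -/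
theorem loopDif_add (L : LC) [CompactSpace L] (a : C(L × X, Z)) (α β : GenLoop (Fin (e + 1)) X x0) :
    (loopDif a (GenLoop.transAt 0 α β)).E.cls =
      zadd (Sph 2 Z) (loopDif a α).E.cls (loopDif a β).E.cls := by
  rw [zadd_eq33 (pinchW33 e L) (pinchAt_unit_left33 _) (pinchAt_unit_right33 _), PMap.cls_eq]
  set γ := GenLoop.transAt 0 α β with hγ
  have hk0 : ∀ w, 0 ≤ kapW33 e L w := fun w => (kap_mem33 w.1).1
  have hk1 : ∀ w, kapW33 e L w ≤ 1 := fun w => (kap_mem33 w.1).2
  have ha0 : ∀ w : (LC.rpow (Fin (e + 1))).prod L, kapW33 e L w ≠ 1 → γ (strR w.1) = x0 := by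
    intro w hw
    have h := sH_bd33 (r := w.1) hw 0
    rw [sH_zero33] at h
    exact γ.2 _ h
  have ha1 : ∀ w : (LC.rpow (Fin (e + 1))).prod L, kapW33 e L w ≠ 1 → γ (s33 w.1) = x0 := by
    intro w hw
    have h := sH_bd33 (r := w.1) hw 1
    rw [sH_one33] at h
    exact γ.2 _ h
  have ha2 : ∀ w : (LC.rpow (Fin (e + 1))).prod L,
      (⟨cut2P33 e L, (cut2P33 e L).cont⟩ : C((LC.rpow (Fin (e + 1))).prod L, ℝ)) w ≠ 1 →
        γ (s33 w.1) = x0 := by
    intro w hw
    change cut2P33 e L w ≠ (1 : ℝ) at hw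
    rcases lt_trichotomy (w.1 0) 0 with h | h | h
    · rw [cut2_neg33 h] at hw
      rw [s_neg33 α β h]
      exact α.2 _ (strR_bd hw)
    · exact s_zero33 α β h
    · rw [cut2_pos33 h] at hw
      rw [s_pos33 α β h]
      exact β.2 _ (strR_bd hw)
  let D0 := sDif33 (L := L) a γ strR continuous_strR (kapW33 e L) hk0 hk1 kapW_vanish33 ha0
  let D1 := sDif33 (L := L) a γ s33 continuous_s33 (kapW33 e L) hk0 hk1 kapW_vanish33 ha1
  let D2 := sDif33 (L := L) a γ s33 continuous_s33
    (⟨cut2P33 e L, (cut2P33 e L).cont⟩ : C((LC.rpow (Fin (e + 1))).prod L, ℝ))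
    (fun w => (cut2_mem33 w).1) (fun w => (cut2_mem33 w).2) (cut2P33 e L).infty ha2
  have e1 : (loopDif a γ).E.Homotopic D0.E :=
    Dif.homotopic_cutoff _ _ (fun _ => rfl) (fun _ => rfl)
  have e2 : D0.E.Homotopic D1.E := by
    refine Dif.homotopic_of D0 D1 (fun _ => rfl)
      ⟨fun x => a (x.2.2, γ (sH33 (x.1, x.2.1))), ?_⟩ ⟨fun x => a (x.2.2, x0), ?_⟩
      (a '' (univ ×ˢ insert x0 (range γ)))
      ((isCompact_univ.prod ((isCompact_range γ.1.continuous).insert x0)).image a.continuous)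
      (fun x => ⟨⟨(x.2.2, γ (sH33 (x.1, x.2.1))), ⟨trivial, Or.inr (mem_range_self _)⟩, rfl⟩,
        ⟨(x.2.2, x0), ⟨trivial, Or.inl rfl⟩, rfl⟩⟩) ?_ (fun _ => rfl) ?_ (fun _ => rfl) ?_
    · exact a.continuous.comp ((continuous_snd.comp continuous_snd).prodMk
        (γ.1.continuous.comp (continuous_sH33.comp (continuous_fst.prodMk
          (continuous_fst.comp continuous_snd)))))
    · exact a.continuous.comp ((continuous_snd.comp continuous_snd).prodMk continuous_const)
    · intro w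
      exact congrArg (fun u => a (w.2, γ u)) (sH_zero33 w.1)
    · intro w
      exact congrArg (fun u => a (w.2, γ u)) (sH_one33 w.1)
    · intro t w hw
      exact congrArg (fun u => a (w.2, u)) (γ.2 _ (sH_bd33 hw t))
  have e3 : D1.E.Homotopic D2.E := Dif.homotopic_cutoff _ _ (fun _ => rfl) (fun _ => rfl)
  have e4 : D2.E = ((loopDif a α).E.copair (loopDif a β).E).comp (mOf33 (pinchW33 e L)) := by
    ext ⟨z, w⟩
    change D2.fn (z, w) = ((loopDif a α).E.copair (loopDif a β).E).plus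
      ((PMap.ofHomeo (ldist LC.C ((LC.rpow (Fin (e + 1))).prod L)
        ((LC.rpow (Fin (e + 1))).prod L))).plus (smashPt LC.C
          (((LC.rpow (Fin (e + 1))).prod L).sum ((LC.rpow (Fin (e + 1))).prod L))
          ((z : OnePoint ℂ), pinchW33 e L w)))
    rcases lt_trichotomy (w.1 0) 0 with h | h | h
    · rw [pinchW_neg33 h]
      change Sph.mk (Fin.cons (squash z.re) (fun _ : Fin 1 =>
          Set.projIcc 0 1 zero_le_one (eta z.im * cut2P33 e L w)))
          (if (squash z.im : ℝ) ≤ 1 / 2 then a (w.2, γ (s33 w.1)) else a (w.2, x0)) =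
        Sph.mk (Fin.cons (squash z.re) (fun _ : Fin 1 =>
          Set.projIcc 0 1 zero_le_one (eta z.im * cutR (chg33 w).1)))
          (if (squash z.im : ℝ) ≤ 1 / 2 then a (w.2, α (strR (chg33 w).1)) else a (w.2, x0))
      rw [cut2_neg33 h, s_neg33 α β h]
    · rw [pinchW_zero33 h]
      change Sph.mk (Fin.cons (squash z.re) (fun _ : Fin 1 =>
          Set.projIcc 0 1 zero_le_one (eta z.im * cut2P33 e L w)))
          (if (squash z.im : ℝ) ≤ 1 / 2 then a (w.2, γ (s33 w.1)) else a (w.2, x0)) =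
        (Sph 2 Z).pt
      refine mk_eq_pt_of_boundary _ _ (boundary_zero33 (i := 1) ?_)
      change Set.projIcc 0 1 zero_le_one (eta z.im * cut2P33 e L w) = (0 : unitInterval)
      rw [cut2_zero33 h, mul_zero]
      exact projIcc_zero33 (le_refl _)
    · rw [pinchW_pos33 h]
      change Sph.mk (Fin.cons (squash z.re) (fun _ : Fin 1 =>
          Set.projIcc 0 1 zero_le_one (eta z.im * cut2P33 e L w)))
          (if (squash z.im : ℝ) ≤ 1 / 2 then a (w.2, γ (s33 w.1)) else a (w.2, x0)) =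
        Sph.mk (Fin.cons (squash z.re) (fun _ : Fin 1 =>
          Set.projIcc 0 1 zero_le_one (eta z.im * cutR (chg33 w).1)))
          (if (squash z.im : ℝ) ≤ 1 / 2 then a (w.2, β (strR (chg33 w).1)) else a (w.2, x0))
      rw [cut2_pos33 h, s_pos33 α β h]
  rw [← e4]
  exact (e1.trans e2).trans e3

/-- The difference map of a power of a loop. -/
theorem loopDif_pow (L : LC) [CompactSpace L] (a : C(L × X, Z)) (α β : GenLoop (Fin (e + 1)) X x0)
    (m : ℤ) (h : hclass β = hclass α ^ m) :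
    (loopDif a β).E.cls = zs (Sph 2 Z) m (loopDif a α).E.cls := by
  letI inst : AddCommGroup ((repF (Sph 2 Z)).obj
      (op (LC.C.prod ((LC.rpow (Fin (e + 1))).prod L)))) :=
    (isAddFun_repF (Sph 2 Z)).grp ((LC.rpow (Fin (e + 1))).prod L)
  let Θ : HomotopyGroup (Fin (e + 1)) X x0 → (repF (Sph 2 Z)).obj
      (op (LC.C.prod ((LC.rpow (Fin (e + 1))).prod L))) := fun x =>
    (Quotient.lift (fun α : GenLoop (Fin (e + 1)) X x0 => (loopDif a α).E.cls)
      (fun α β h => PMap.cls_eq.2 (loopDif_homotopic a h)) x :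
      HMap (LC.C.prod ((LC.rpow (Fin (e + 1))).prod L)) (Sph 2 Z))
  have hmul : ∀ x y, Θ (x * y) = Θ x + Θ y := by
    intro x y
    obtain ⟨α⟩ := x
    obtain ⟨β⟩ := y
    have h1 : Θ (hgm α * hgm β) = Θ (hgm (GenLoop.transAt 0 β α)) := by rw [hgm_mul 0]
    have h2 : Θ (hgm (GenLoop.transAt 0 β α)) = Θ (hgm β) + Θ (hgm α) := loopDif_add L a β α
    exact h1.trans (h2.trans (add_comm _ _))
  let Φ : HomotopyGroup (Fin (e + 1)) X x0 →* Multiplicative ((repF (Sph 2 Z)).obj
      (op (LC.C.prod ((LC.rpow (Fin (e + 1))).prod L)))) :=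
    MonoidHom.mk' (fun x => Multiplicative.ofAdd (Θ x)) hmul
  have h3 := map_zpow Φ (hclass α) m
  rw [← h] at h3
  exact h3

end Pool.Agent.Helper1.Stab
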