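import Pool.Agent.Helper1.Stab.Model

/-! Factorisation of maps to `S^v ∧ BG D ₊` over a stage. -/

open CategoryTheory Topology Filter Set Opposite

noncomputable section

namespace Pool.Agent.Helper1.Stab

/-- the map from a stage Grassmannian to `BG` is injective -/
theorem toBG_injective {D : Set ℂ} (hD : GoodD D) (l : ℕ) : Function.Injective (toBG D l) := by
  intro x y h
  induction x using Quot.ind with
  | mk A =>
    induction y using Quot.ind with
    | mk B => exact Quot.sound ((mk_eq_iff hD A B).1 h)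

instance compactSpace_Gr60 (D : Set ℂ) (l : ℕ) : CompactSpace (Gr D l) := by
  haveI : CompactSpace (Frame l) := inferInstance
  exact inferInstanceAs (CompactSpace (Quot _))

instance compactSpace_stageLC60 {D : Set ℂ} (hD : GoodD D) (l : ℕ) :
    CompactSpace (stageLC hD l) := isCompact_iff_compactSpace.1 (isCompact_stage D l)

/-- the inverse of `toBG` on a stage -/
theorem exists_grStage {D : Set ℂ} (hD : GoodD D) (l : ℕ) :
    ∃ g : C(stageLC hD l, Gr D l), ∀ x, toBG D l (g x) = x.1 := by
  haveI : T2Space (stage D l) := t2_stage hD l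
  let φ : Gr D l → stage D l := fun x => ⟨toBG D l x, x, rfl⟩
  have hφ : Continuous φ := (toBG D l).continuous.subtype_mk _
  have hb : Function.Bijective φ := by
    refine ⟨fun x y h => toBG_injective hD l (congrArg Subtype.val h), ?_⟩
    rintro ⟨_, x, rfl⟩
    exact ⟨x, rfl⟩
  let e : Gr D l ≃ₜ stage D l :=
    Continuous.homeoOfEquivCompactToT2 (f := Equiv.ofBijective φ hb) hφ
  refine ⟨⟨e.symm, e.symm.continuous⟩, fun x => ?_⟩
  exact congrArg Subtype.val (e.apply_symm_apply x)

/-- the part over a stage as a one-point compactification -/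
theorem exists_overS_homeo {D : Set ℂ} (hD : GoodD D) (v l : ℕ) :
    ∃ E : OnePoint ((LC.rpow (Fin v)).prod (stageLC hD l)) ≃ₜ overS D v l,
      E OnePoint.infty = ⟨(Sph v (BG D)).pt, Or.inl rfl⟩ ∧
      ∀ x : (LC.rpow (Fin v)).prod (stageLC hD l),
        (E (x : OnePoint ((LC.rpow (Fin v)).prod (stageLC hD l)))).1 =
          Sph.mk (fun i => squash (x.1 i)) x.2.1 := by
  haveI := t2_BG hD
  obtain ⟨E, h1, h2⟩ := exists_homeo_onePoint (v := v) (stageLC hD l)
    (Subtype.val : stage D l → BG D) continuous_subtype_val Subtype.val_injective (overS D v l)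
    (Or.inl rfl) (fun u z => Or.inr ⟨u, z.1, z.2, rfl⟩) (by
      rintro y (hy | ⟨u, x, hx, hy⟩)
      · exact Or.inl hy
      · exact Or.inr ⟨u, ⟨x, hx⟩, hy⟩)
  exact ⟨E, h1, fun x => congrArg Subtype.val (h2 x)⟩

/-- the map `ℝ^v × stage → S^v ∧ BG D ₊` -/
def stagePt {D : Set ℂ} (hD : GoodD D) (v l : ℕ) :
    PMap ((LC.rpow (Fin v)).prod (stageLC hD l)) (Sph v (BG D)) :=
  PMap.ofPlus (Y := Sph v (BG D)) (fun x => ((exists_overS_homeo hD v l).choose x).1)
    (continuous_subtype_val.comp (exists_overS_homeo hD v l).choose.continuous)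
    (congrArg Subtype.val (exists_overS_homeo hD v l).choose_spec.1)

theorem stagePt_apply {D : Set ℂ} (hD : GoodD D) (v l : ℕ)
    (x : (LC.rpow (Fin v)).prod (stageLC hD l)) :
    stagePt hD v l x = (Sph.mk (fun i => squash (x.1 i)) x.2.1 : Sph v (BG D)) :=
  (exists_overS_homeo hD v l).choose_spec.2 x

theorem stagePt_plus {D : Set ℂ} (hD : GoodD D) (v l : ℕ)
    (x : OnePoint ((LC.rpow (Fin v)).prod (stageLC hD l))) :
    (stagePt hD v l).plus x = ((exists_overS_homeo hD v l).choose x).1 := by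
  rcases x with _ | x
  · exact (congrArg Subtype.val (exists_overS_homeo hD v l).choose_spec.1).symm
  · rfl

/-- Every map `W → S^v ∧ BG D ₊` factors over a stage. -/
theorem exists_fac {D : Set ℂ} (hD : GoodD D) {v : ℕ} {W : LC} (φ : PMap W (Sph v (BG D))) :
    ∃ (l : ℕ) (φ' : PMap W ((LC.rpow (Fin v)).prod (stageLC hD l)).plus),
      ∀ w, φ w = (stagePt hD v l).plus (φ' w) := by
  obtain ⟨l, hl⟩ := exists_stage_of_compact hD (isCompact_range φ.continuous_plus)
  have hl' : ∀ x, φ.plus x ∈ overS D v l := fun x => hl _ ⟨x, rfl⟩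
  let E := (exists_overS_homeo hD v l).choose
  let ψ : OnePoint W → OnePoint ((LC.rpow (Fin v)).prod (stageLC hD l)) := fun x =>
    E.symm ⟨φ.plus x, hl' x⟩
  have hψ : Continuous ψ := E.symm.continuous.comp (φ.continuous_plus.subtype_mk _)
  refine ⟨l, PMap.ofPlus ψ hψ ?_, fun w => ?_⟩
  · change E.symm ⟨φ.plus OnePoint.infty, _⟩ = OnePoint.infty
    rw [Homeomorph.symm_apply_eq]
    exact (exists_overS_homeo hD v l).choose_spec.1.symm
  · rw [stagePt_plus]
    change _ = (E (E.symm ⟨φ.plus (w : OnePoint W), _⟩)).1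
    rw [Homeomorph.apply_symm_apply]
    rfl

end Pool.Agent.Helper1.Stab
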