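import Pool.Agent.Helper60.Stab.Ladder
import Pool.Agent.Helper60.Stab.DiffAdd
import Pool.Agent.Helper60.Stab.CommH
import Pool.Agent.Helper60.Stab.StageFac

/-! The telescope of the `m`-th power of a loop. -/

open CategoryTheory Topology Filter Set Opposite

noncomputable section

namespace Pool.Agent.Helper1.Stab

/-! ## Naturality of multiples -/

theorem zs_pb (Z : PT) {K L : LC} (n : ℤ) (f : PMap K L.plus) (g g' : PMap (LC.C.prod L) Z)
    (h : g'.cls = zs Z n g.cls) :
    (g'.comp (PMap.ltens LC.C f)).cls = zs Z n (g.comp (PMap.ltens LC.C f)).cls := by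
  letI : AddCommGroup ((repF Z).obj (op (LC.C.prod K))) := (isAddFun_repF Z).grp K
  letI : AddCommGroup ((repF Z).obj (op (LC.C.prod L))) := (isAddFun_repF Z).grp L
  let φ : (repF Z).obj (op (LC.C.prod L)) →+ (repF Z).obj (op (LC.C.prod K)) :=
    AddMonoidHom.mk' (fun x => pb (repF Z) (PMap.ltens LC.C f) x)
      (fun x y => (isAddFun_repF Z).add_pb f x y)
  have h1 := map_zsmul φ n (show (repF Z).obj (op (LC.C.prod L)) from g.cls)
  have h2 := congrArg (fun x => φ x) h
  exact h2.trans h1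

/-! ## The structure maps in two steps -/

variable {e : ℕ} {X : Type} [TopologicalSpace X]

/-- the suspension coordinate -/
def Sph.susp {k : ℕ} (t : unitInterval) (x : Sph k X) : Sph (k + 1) X :=
  Sph.ind (k := k + 1) (fun y => Sph.mk y.1 y.2)
    (fun u x hu => (Quot.sound (.bd u x hu)).symm) t x

theorem Sph.susp_zero {k : ℕ} (x : Sph k X) : Sph.susp 0 x = (Sph (k + 1) X).pt :=
  Sph.ind_zero _ _ x

theorem Sph.susp_one {k : ℕ} (x : Sph k X) : Sph.susp 1 x = (Sph (k + 1) X).pt :=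
  Sph.ind_one _ _ x

theorem Sph.susp_continuous {k : ℕ} : Continuous fun x : unitInterval × Sph k X =>
    Sph.susp x.1 x.2 :=
  Sph.ind_continuous _ _ (continuous_quot_mk.comp continuous_inr)

/-- the two maps `S¹ ∧ S^e ∧ X₊ → S¹ ∧ X₊`, `S¹ ∧ S¹ ∧ X₊ → S² ∧ X₊` -/
def twoPre (μ : SelfMap e X) : Prespectrum where
  sp := fun n => match n with
    | 0 => Sph e X
    | n + 1 => Sph (n + 1) X
  str := fun n => match n with
    | 0 => ⟨fun x => Sph.ind μ.toFun μ.bd x.1 x.2, Sph.ind_continuous _ μ.bd μ.toFun.continuous⟩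
    | n + 1 => ⟨fun x => (Sph.susp x.1 x.2 : Sph (n + 2) X), Sph.susp_continuous⟩
  str_zero := by
    rintro (_ | n) x
    · exact Sph.ind_zero μ.toFun μ.bd x
    · exact Sph.susp_zero (k := n + 1) x
  str_one := by
    rintro (_ | n) x
    · exact Sph.ind_one μ.toFun μ.bd x
    · exact Sph.susp_one (k := n + 1) x
  str_pt := by
    rintro (_ | n) t
    · rfl
    · rfl

/-- the two-step structure map at the end of a block -/
def mulSig (μ : SelfMap e X) {W : LC} (φ : PMap W (Sph e X)) :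
    PMap (LC.C.prod W) (Sph 2 X) :=
  (twoPre μ).sigC (n := 0) φ

theorem mulSig_apply (μ : SelfMap e X) {W : LC} (φ : PMap W (Sph e X)) (z : ℂ) (w : W) :
    mulSig μ φ (z, w) = Sph.susp (squash z.re) (Sph.ind μ.toFun μ.bd (squash z.im) (φ w)) := rfl

theorem mulSig_comp (μ : SelfMap e X) {W V : LC} (ι : PMap V (Sph e X)) (ψ : PMap W V.plus)
    (φ : PMap W (Sph e X)) (h : ∀ w, φ w = ι.plus (ψ w)) :
    mulSig μ φ = (mulSig μ ι).comp (PMap.ltens LC.C ψ) := by
  ext ⟨z, w⟩
  rw [mulSig_apply, h]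
  change _ = (mulSig μ ι).plus (smashPt LC.C V ((z : OnePoint ℂ), ψ w))
  rcases ψ w with _ | v
  · rfl
  · rfl

/-! ## Powers -/

section powers
variable {D : Set ℂ} (hD : GoodD D) {d k : ℕ}

/-- the action on a stage -/
def actS (k l : ℕ) : C(stageLC hD l × Gr D k, BG D) :=
  ⟨fun y => act D k (y.2, y.1.1), (act D k).continuous.comp
    (continuous_snd.prodMk (continuous_subtype_val.comp continuous_fst))⟩

theorem mulSig_stage (l : ℕ) (f : GenLoop (Fin d) (Gr D k) (Gr.pt D k)) :
    mulSig (mulMap f) (stagePt hD d l) = (loopDif (L := stageLC hD l) (actS hD k l) f).E := by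
  ext ⟨z, r, x⟩
  rw [mulSig_apply, stagePt_apply]
  change (Sph.mk (Fin.cons (squash z.re) (height (Fin.cons (squash z.im) (fun i => squash (r i))
      : Fin (d + 1) → unitInterval))) (act D k (if ((Fin.cons (squash z.im)
      (fun i => squash (r i)) : Fin (d + 1) → unitInterval) 0 : ℝ) ≤ 1 / 2 then
        f (stretch (Fin.cons (squash z.im) (fun i => squash (r i)))) else Gr.pt D k, x.1)) :
      Sph 2 (BG D)) =
    Sph.mk (Fin.cons (squash z.re) (fun _ : Fin 1 =>
      Set.projIcc 0 1 zero_le_one (eta z.im * cutR r)))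
    (if (squash z.im : ℝ) ≤ 1 / 2 then act D k (f (strR r), x.1) else act D k (Gr.pt D k, x.1))
  have e1 : height (Fin.cons (squash z.im) (fun i => squash (r i)) : Fin (d + 1) → unitInterval) =
      fun _ : Fin 1 => Set.projIcc 0 1 zero_le_one (eta z.im * cutR r) := by
    funext i
    unfold height eta cutR
    simp only [Fin.cons_zero, Fin.cons_succ]
  have e2 : stretch (Fin.cons (squash z.im) (fun i => squash (r i)) : Fin (d + 1) → unitInterval) =
      strR r := by
    funext i
    unfold stretch strR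
    simp only [Fin.cons_succ]
  rw [e1, e2, Fin.cons_zero]
  split_ifs <;> rfl

/-- the action of `BG` on a stage -/
def actG {l : ℕ} (g : C(stageLC hD l, Gr D l)) : C(stageLC hD l × BG D, BG D) :=
  ⟨fun y => act D l (g y.1, y.2), (act D l).continuous.comp
    ((g.continuous.comp continuous_fst).prodMk continuous_snd)⟩

theorem loopDif_actS (l : ℕ) (g : C(stageLC hD l, Gr D l)) (hg : ∀ x, toBG D l (g x) = x.1)
    (f : GenLoop (Fin d) (Gr D k) (Gr.pt D k)) :
    (loopDif (L := stageLC hD l) (actS hD k l) f).E.Homotopic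
      (loopDif (L := stageLC hD l) (actG hD g) (toBGLoop f)).E := by
  obtain ⟨C, hC0, hC1⟩ := exists_comm_homotopy hD k l
  refine Dif.homotopic_of _ _ (fun w => rfl)
    ⟨fun y => C (y.1, (f (strR y.2.1), g y.2.2)), C.continuous.comp (continuous_fst.prodMk
      ((f.1.continuous.comp (continuous_strR.comp (continuous_fst.comp continuous_snd))).prodMk
        (g.continuous.comp (continuous_snd.comp continuous_snd))))⟩
    ⟨fun y => C (y.1, (Gr.pt D k, g y.2.2)), C.continuous.comp (continuous_fst.prodMk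
      (continuous_const.prodMk (g.continuous.comp (continuous_snd.comp continuous_snd))))⟩
    (range C) (isCompact_range C.continuous) (fun x => ⟨⟨_, rfl⟩, ⟨_, rfl⟩⟩) ?_ ?_ ?_ ?_ ?_
  · rintro ⟨r, x⟩
    change C (0, (f (strR r), g x)) = act D k (f (strR r), x.1)
    rw [hC0, hg]
  · rintro ⟨r, x⟩
    change C (0, (Gr.pt D k, g x)) = act D k (Gr.pt D k, x.1)
    rw [hC0, hg]
  · rintro ⟨r, x⟩
    change C (1, (f (strR r), g x)) = act D l (g x, toBG D k (f (strR r)))
    rw [hC1]
  · rintro ⟨r, x⟩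
    change C (1, (Gr.pt D k, g x)) = act D l (g x, BG.pt D)
    rw [hC1, toBG_pt]
  · rintro t ⟨r, x⟩ h
    change C (t, (f (strR r), g x)) = C (t, (Gr.pt D k, g x))
    have h1 : f (strR r) = Gr.pt D k := f.2 _ (strR_bd h)
    rw [h1]

include hD in
/-- the two-step structure map of the power -/
theorem mulSig_pow {k' : ℕ} (f : GenLoop (Fin (d + 1)) (Gr D k) (Gr.pt D k))
    (f' : GenLoop (Fin (d + 1)) (Gr D k') (Gr.pt D k')) (m : ℤ)
    (h : hclass (toBGLoop f') = hclass (toBGLoop f) ^ m) {W : LC}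
    (φ : PMap W (Sph (d + 1) (BG D))) :
    (mulSig (mulMap f') φ).cls = zs (Sph 2 (BG D)) m (mulSig (mulMap f) φ).cls := by
  obtain ⟨l, ψ, hψ⟩ := exists_fac hD φ
  rw [mulSig_comp (mulMap f') (stagePt hD (d + 1) l) ψ φ hψ,
    mulSig_comp (mulMap f) (stagePt hD (d + 1) l) ψ φ hψ]
  apply zs_pb
  obtain ⟨g, hg⟩ := exists_grStage hD l
  rw [mulSig_stage, mulSig_stage, PMap.cls_eq.2 (loopDif_actS hD l g hg f),
    PMap.cls_eq.2 (loopDif_actS hD l g hg f')]
  exact loopDif_pow (stageLC hD l) (actG hD g) (toBGLoop f) (toBGLoop f') m h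

end powers

/-! ## Levels -/

theorem Sph.cast_cast {a b c : ℕ} (h : a = b) (h' : b = c) (x : Sph a X) :
    Sph.cast h' (Sph.cast h x) = Sph.cast (h.trans h') x := by
  subst h
  subst h'
  rfl

theorem two_of_eq (μ : SelfMap e X) (he : e ≠ 1) (k : ℕ) (hk : k = e) (s t : unitInterval)
    (y : Sph k X) (h2 : 2 = if (if k = e then 1 else k + 1) = e then 1 else
      (if k = e then 1 else k + 1) + 1) :
    teleStr μ (if k = e then 1 else k + 1) s (teleStr μ k t y) =
      Sph.cast h2 (Sph.susp s (Sph.ind μ.toFun μ.bd t (Sph.cast hk y))) := by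
  have key : ∀ (c : ℕ) (h : 1 = c) (h' : 2 = if c = e then 1 else c + 1) (x : Sph 1 X),
      teleStr μ c s (Sph.cast h x) = Sph.cast h' (Sph.susp s x) := by
    intro c h h' x
    subst h
    unfold teleStr
    rw [dif_neg (Ne.symm he)]
    rfl
  have h1 : teleStr μ k t y = Sph.cast (if_pos hk).symm
      (Sph.ind μ.toFun μ.bd t (Sph.cast hk y)) := by
    unfold teleStr
    rw [dif_pos hk]
  rw [h1]
  exact key _ (if_pos hk).symm h2 _

theorem two_of_ne {μ μ' : SelfMap e X} (k : ℕ) (hk : k ≠ e)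
    (hk' : (if k = e then 1 else k + 1) ≠ e) (s t : unitInterval) (y : Sph k X) :
    teleStr μ (if k = e then 1 else k + 1) s (teleStr μ k t y) =
      teleStr μ' (if k = e then 1 else k + 1) s (teleStr μ' k t y) := by
  have h1 : teleStr μ k t y = teleStr μ' k t y := by
    unfold teleStr
    rw [dif_neg hk, dif_neg hk]
  rw [h1]
  unfold teleStr
  rw [dif_neg hk', dif_neg hk']

/-- multiples and transport -/
theorem zs_cast {W : LC} (m : ℤ) {a b : ℕ} (h : a = b) (g g' : PMap (LC.C.prod W) (Sph a X))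
    (hg : g'.cls = zs (Sph a X) m g.cls) (k k' : PMap (LC.C.prod W) (Sph b X))
    (hk : ∀ x, k x = Sph.cast h (g x)) (hk' : ∀ x, k' x = Sph.cast h (g' x)) :
    k'.cls = zs (Sph b X) m k.cls := by
  subst h
  have e1 : k = g := PMap.ext hk
  have e2 : k' = g' := PMap.ext hk'
  rw [e1, e2]
  exact hg

theorem lev_even60 {a : ℕ} (ha : 0 < a) (n : ℕ) : ∃ c, lev (2 * a) (2 * n) = 2 * c ∧ c ≤ a := by
  induction n with
  | zero => exact ⟨0, rfl, Nat.zero_le _⟩
  | succ n ih =>
    obtain ⟨c, hc, hca⟩ := ih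
    have h1 : lev (2 * a) (2 * (n + 1)) = if lev (2 * a) (2 * n + 1) = 2 * a then 1
        else lev (2 * a) (2 * n + 1) + 1 := rfl
    have h2 : lev (2 * a) (2 * n + 1) = if lev (2 * a) (2 * n) = 2 * a then 1
        else lev (2 * a) (2 * n) + 1 := rfl
    by_cases h : lev (2 * a) (2 * n) = 2 * a
    · rw [if_pos h] at h2
      rw [h2, if_neg (by omega)] at h1
      exact ⟨1, h1, by omega⟩
    · rw [if_neg h] at h2
      rw [h2, if_neg (by omega)] at h1
      exact ⟨c + 1, by omega, by omega⟩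

theorem blk_even60 {a : ℕ} (ha : 0 < a) (n : ℕ) :
    blk (2 * a) (2 * (n + 1)) = blk (2 * a) (2 * n) +
      (if lev (2 * a) (2 * n) = 2 * a then 1 else 0) ∧ lev (2 * a) (2 * n + 1) ≠ 2 * a := by
  obtain ⟨c, hc, hca⟩ := lev_even60 ha n
  have h2 : lev (2 * a) (2 * n + 1) = if lev (2 * a) (2 * n) = 2 * a then 1
      else lev (2 * a) (2 * n) + 1 := rfl
  have b1 : blk (2 * a) (2 * (n + 1)) = if lev (2 * a) (2 * n + 1) = 2 * a then
      blk (2 * a) (2 * n + 1) + 1 else blk (2 * a) (2 * n + 1) := rfl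
  have b2 : blk (2 * a) (2 * n + 1) = if lev (2 * a) (2 * n) = 2 * a then
      blk (2 * a) (2 * n) + 1 else blk (2 * a) (2 * n) := rfl
  by_cases h : lev (2 * a) (2 * n) = 2 * a
  · rw [if_pos h] at h2 b2
    rw [if_neg (by omega), b2] at b1
    rw [if_pos h]
    exact ⟨b1, by omega⟩
  · rw [if_neg h] at h2 b2
    rw [if_neg (by omega), b2] at b1
    rw [if_neg h]
    exact ⟨b1, by omega⟩

/-- the ladder of a power -/
def powLadder {a : ℕ} (ha : 0 < a) (μ μ' : SelfMap (2 * a) X) (m : ℤ)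
    (hm : ∀ (W : LC) (φ : PMap W (Sph (2 * a) X)),
      (mulSig μ' φ).cls = zs (Sph 2 X) m (mulSig μ φ).cls) :
    Ladder (tele μ) (tele μ') m where
  θ n := Homeomorph.refl (Sph (lev (2 * a) (2 * n)) X)
  θ_pt n := rfl
  s n := blk (2 * a) (2 * n)
  step n := by
    have h := (blk_even60 ha n).1
    by_cases h' : lev (2 * a) (2 * n) = 2 * a
    · rw [if_pos h'] at h
      exact Or.inr h
    · rw [if_neg h'] at h
      exact Or.inl h
  unb N := by
    obtain ⟨j, hj⟩ := exists_blk (d := 2 * a) (by omega) N 0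
    refine ⟨j, hj.trans ?_⟩
    have hmono : Monotone (blk (2 * a)) := by
      refine monotone_nat_of_le_succ fun n => ?_
      change _ ≤ if lev (2 * a) n = 2 * a then blk (2 * a) n + 1 else blk (2 * a) n
      split_ifs <;> omega
    exact hmono (by omega)
  comm n W φ := by
    obtain ⟨hb, hl⟩ := blk_even60 ha n
    by_cases h : lev (2 * a) (2 * n) = 2 * a
    · rw [if_pos h] at hb
      have hexp : blk (2 * a) (2 * (n + 1)) - blk (2 * a) (2 * n) = 1 := by omega
      rw [hexp, pow_one]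
      have h2 : 2 = lev (2 * a) (2 * n + 2) := by
        have h3 : lev (2 * a) (2 * n + 2) = if lev (2 * a) (2 * n + 1) = 2 * a then 1
          else lev (2 * a) (2 * n + 1) + 1 := rfl
        have h4 : lev (2 * a) (2 * n + 1) = if lev (2 * a) (2 * n) = 2 * a then 1
          else lev (2 * a) (2 * n) + 1 := rfl
        rw [if_neg hl, h4, if_pos h] at h3
        exact h3.symm
      let φ0 : PMap W (Sph (2 * a) X) := PMap.post (Y := Sph (lev (2 * a) (2 * n)) X)
        (Z := Sph (2 * a) X) (Sph.cast h) (Sph.cast_continuous h) (Sph.cast_pt h) φ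
      refine zs_cast (X := X) m h2 (mulSig μ φ0) (mulSig μ' φ0) (hm W φ0) _ _ ?_ ?_
      · rintro ⟨z, w⟩
        exact two_of_eq μ (by omega) _ h (squash z.re) (squash z.im) (φ w) h2
      · rintro ⟨z, w⟩
        exact two_of_eq μ' (by omega) _ h (squash z.re) (squash z.im) (φ w) h2
    · rw [if_neg h] at hb
      have hexp : blk (2 * a) (2 * (n + 1)) - blk (2 * a) (2 * n) = 0 := by omega
      rw [hexp, pow_zero]
      have h1 : ∀ (Z : PT) (x : HMap (LC.C.prod W) Z), zs Z 1 x = x := by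
        intro Z x
        letI : AddCommGroup ((repF Z).obj (op (LC.C.prod W))) := (isAddFun_repF Z).grp W
        exact one_zsmul (show (repF Z).obj (op (LC.C.prod W)) from x)
      rw [h1]
      congr 1
      ext ⟨z, w⟩
      exact two_of_ne _ h hl (squash z.re) (squash z.im) (φ w)

/-- If `f' = f ^ m` in the homotopy group of `BG D` then the telescope of `f'` is the localisation
of the telescope of `f` at the powers of `m`. -/
theorem tele_pow60 {D : Set ℂ} (hD : GoodD D) {d k k' : ℕ} (hd : Odd d)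
    (f : GenLoop (Fin (d + 1)) (Gr D k) (Gr.pt D k))
    (f' : GenLoop (Fin (d + 1)) (Gr D k') (Gr.pt D k')) (m : ℤ)
    (h : hclass (toBGLoop f') = hclass (toBGLoop f) ^ m) :
    ∃ q : hP.obj (tele (mulMap f)) ⟶ hP.obj (tele (mulMap f')),
      GF.IsLoc (Submonoid.powers m) q := by
  have hm : ∀ (W : LC) (φ : PMap W (Sph (d + 1) (BG D))),
      (mulSig (mulMap f') φ).cls = zs (Sph 2 (BG D)) m (mulSig (mulMap f) φ).cls :=
    fun W φ => mulSig_pow hD f f' m h φ
  obtain ⟨a, ha⟩ : ∃ a, d + 1 = 2 * a := by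
    obtain ⟨b, hb⟩ := hd
    exact ⟨b + 1, by omega⟩
  have key : ∀ (c : ℕ) (hc : c = 2 * a) (μ μ' : SelfMap c (BG D))
      (_ : ∀ (W : LC) (φ : PMap W (Sph c (BG D))),
        (mulSig μ' φ).cls = zs (Sph 2 (BG D)) m (mulSig μ φ).cls) (_ : 0 < a),
      ∃ q : hP.obj (tele μ) ⟶ hP.obj (tele μ'), GF.IsLoc (Submonoid.powers m) q := by
    intro c hc μ μ' h1 h2
    subst hc
    exact (powLadder h2 μ μ' m h1).exists_loc
  exact key (d + 1) ha (mulMap f) (mulMap f') hm (by omega)

end Pool.Agent.Helper1.Stab
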