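import Pool.Agent.Helper1.Stab.T.Cls
import Pool.Agent.Helper67.Stab.RelD

/-! Project T, (FC): a transformation of `R` acts on the coefficients of the polynomial theory. -/

set_option autoImplicit false

open CategoryTheory Topology Filter Set Opposite

noncomputable section

namespace Pool.Agent.Helper60.StabFC

open Pool.Agent.Helper1.Stab
open Pool.Agent.Helper63.Stab (jh)
open Pool.Agent.Helper67.Stab (lf lf_stab lf_re)

variable {R : Biv}

theorem map_zero (O : NTr R R) (K Z : LC) : O.F (0 : R.Hom K Z) = 0 := by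
  have h := O.add (0 : R.Hom K Z) 0
  rw [add_zero] at h
  exact left_eq_add.1 h

theorem map_sum (O : NTr R R) {K Z : LC} {ι : Type*} (s : Finset ι) (x : ι → R.Hom K Z) :
    O.F (∑ i ∈ s, x i) = ∑ i ∈ s, O.F (x i) := by
  classical
  induction s using Finset.induction_on with
  | empty => exact map_zero O K Z
  | insert a s h ih => rw [Finset.sum_insert h, Finset.sum_insert h, O.add, ih]

theorem map_sub (O : NTr R R) {K Z : LC} (x y : R.Hom K Z) : O.F (x - y) = O.F x - O.F y := by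
  have h := O.add (x - y) y
  rw [sub_add_cancel] at h
  rw [h, add_sub_cancel_right]

theorem sum_comp {R : Biv} {K L M : LC} {ι : Type*} (s : Finset ι) (x : ι → R.Hom K L)
    (y : R.Hom L M) : R.comp (∑ i ∈ s, x i) y = ∑ i ∈ s, R.comp (x i) y :=
  _root_.map_sum (AddMonoidHom.mk' (fun x : R.Hom K L => R.comp x y) fun a b => R.add_comp a b y) _ _

variable (P : PRTheory R)

theorem lf_add {σ : Type} [Fintype σ] {L Z : LC} (x y : R.Hom L ((LC.G σ).prod Z)) :
    lf P (x + y) = lf P x + lf P y := by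
  unfold lf
  rw [P.inc_add, P.add_comp]

theorem lf_zero {σ : Type} [Fintype σ] {L Z : LC} :
    lf P (0 : R.Hom L ((LC.G σ).prod Z)) = 0 := by
  have h := lf_add P (0 : R.Hom L ((LC.G σ).prod Z)) 0
  rw [add_zero] at h
  exact left_eq_add.1 h

theorem lf_sub {σ : Type} [Fintype σ] {L Z : LC} (x y : R.Hom L ((LC.G σ).prod Z)) :
    lf P (x - y) = lf P x - lf P y := by
  have h := lf_add P (x - y) y
  rw [sub_add_cancel] at h
  rw [h, add_sub_cancel_right]

variable (O : NTr R R)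

/-- naturality for maps `G κ → G l` -/
theorem F_stage {σ l : Type} [Fintype σ] [Fintype l] {L Z : LC} (f : PMap (LC.G σ) (LC.G l).plus)
    (y : R.Hom L ((LC.G σ).prod Z)) :
    O.F (R.comp y (R.tens (R.J f) Z)) = R.comp (O.F y) (R.tens (R.J f) Z) := by
  rw [R.tens_J, O.post]

theorem lf_F_zero {σ : Type} [Fintype σ] {L Z : LC} (y : R.Hom L ((LC.G σ).prod Z))
    (h : lf P y = 0) : lf P (O.F y) = 0 := by
  obtain ⟨m, hm⟩ := P.eq_zero y h
  have h1 := F_stage O (GK.stab σ (Fin m)) y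
  rw [hm, map_zero] at h1
  rw [← lf_stab P (l := Fin m) (O.F y), ← h1, lf_zero]

theorem lf_F_congr0 {σ : Type} [Fintype σ] {L Z : LC} (x y : R.Hom L ((LC.G σ).prod Z))
    (h : lf P x = lf P y) : lf P (O.F x) = lf P (O.F y) := by
  have h1 : lf P (x - y) = 0 := by rw [lf_sub, h, sub_self]
  have h2 := lf_F_zero P O _ h1
  rw [map_sub, lf_sub] at h2
  exact sub_eq_zero.1 h2

/-- the second map to the common stage -/
def up2 {σ l : Type} [Fintype σ] [Fintype l] {L Z : LC} (y : R.Hom L ((LC.G l).prod Z)) :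
    R.Hom L ((LC.G (σ ⊕ l)).prod Z) :=
  R.comp (R.comp y (R.tens (R.J (GK.stab l σ)) Z))
    (R.tens (jh R (K := LC.G (l ⊕ σ)) (L := LC.G (σ ⊕ l)) (GK.reindex (Equiv.sumComm l σ))) Z)

theorem lf_up2 {σ l : Type} [Fintype σ] [Fintype l] {L Z : LC} (y : R.Hom L ((LC.G l).prod Z)) :
    lf P (up2 (σ := σ) y) = lf P y := by
  unfold up2
  rw [lf_re, lf_stab]

theorem F_up2 {σ l : Type} [Fintype σ] [Fintype l] {L Z : LC} (y : R.Hom L ((LC.G l).prod Z)) :
    O.F (up2 (σ := σ) y) = up2 (σ := σ) (O.F y) := by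
  unfold up2 jh
  rw [F_stage, F_stage]

/-- the first map to the common stage -/
def up1 {σ l : Type} [Fintype σ] [Fintype l] {L Z : LC} (y : R.Hom L ((LC.G σ).prod Z)) :
    R.Hom L ((LC.G (σ ⊕ l)).prod Z) :=
  R.comp y (R.tens (R.J (GK.stab σ l)) Z)

theorem lf_up1 {σ l : Type} [Fintype σ] [Fintype l] {L Z : LC} (y : R.Hom L ((LC.G σ).prod Z)) :
    lf P (up1 (l := l) y) = lf P y := lf_stab P y

theorem F_up1 {σ l : Type} [Fintype σ] [Fintype l] {L Z : LC} (y : R.Hom L ((LC.G σ).prod Z)) :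
    O.F (up1 (l := l) y) = up1 (l := l) (O.F y) := F_stage O _ y

theorem lf_F_congr {σ l : Type} [Fintype σ] [Fintype l] {L Z : LC} (x : R.Hom L ((LC.G σ).prod Z))
    (y : R.Hom L ((LC.G l).prod Z)) (h : lf P x = lf P y) : lf P (O.F x) = lf P (O.F y) := by
  rw [← lf_up1 P (l := l) x, ← lf_up2 P (σ := σ) y] at h
  have h1 := lf_F_congr0 P O _ _ h
  rw [F_up1, F_up2, lf_up1, lf_up2] at h1
  exact h1

/-- the action on the polynomial theory -/
theorem exists_act (K Z : LC) : ∃ φ : P.Hom K Z →+ P.Hom K Z,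
    ∀ {σ : Type} [Fintype σ] (y : R.Hom K ((LC.G σ).prod Z)), φ (lf P y) = lf P (O.F y) := by
  have hs : ∀ x : P.Hom K Z, ∃ (n : ℕ) (y : R.Hom K ((LC.G (Fin n)).prod Z)), lf P y = x := by
    intro x
    obtain ⟨n, -, y, hy⟩ := P.surj x 0
    exact ⟨n, y, hy.symm⟩
  have hex : ∀ x : P.Hom K Z, ∃ z : P.Hom K Z, ∀ {σ : Type} [Fintype σ]
      (y : R.Hom K ((LC.G σ).prod Z)), lf P y = x → lf P (O.F y) = z := by
    intro x
    obtain ⟨n, y, hy⟩ := hs x
    exact ⟨lf P (O.F y), fun y' h => lf_F_congr P O y' y (h.trans hy.symm)⟩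
  choose φ hφ using hex
  refine ⟨AddMonoidHom.mk' φ ?_, fun y => ?_⟩
  · intro x x'
    obtain ⟨n, y, hy⟩ := hs x
    obtain ⟨n', y', hy'⟩ := hs x'
    have h1 : lf P (up1 (l := Fin n') y + up2 (σ := Fin n) y') = x + x' := by
      rw [lf_add, lf_up1, lf_up2, hy, hy']
    rw [← hφ _ _ h1, O.add, lf_add, F_up1, F_up2, lf_up1, lf_up2, hφ _ _ hy, hφ _ _ hy']
  · exact (hφ _ y rfl).symm

theorem good_ltens {p : ∀ {K Z : LC}, R.Hom K Z → Prop} (hp : Good R p) {K Z : LC} (V : LC)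
    (x : R.Hom K Z) (hx : p x) : p (R.ltens V x) :=
  hp.comp _ _ (hp.J _) (hp.comp _ _ (hp.tens _ _ hx) (hp.J _))

theorem good_eL {p : ∀ {K Z : LC}, R.Hom K Z → Prop} (hp : Good R p) (o : Orient R)
    (hu : ∀ (S : Type) [Fintype S], p (o.u S)) (L : List ℕ) : p (o.eL L) := by
  induction L with
  | nil => exact hp.J _
  | cons i L ih =>
    refine hp.comp _ _ (hp.J _) (hp.comp _ _ (hp.tens _ _ ih) (hp.comp _ _ ?_ (hp.J _)))
    refine good_ltens hp _ _ (hp.b o (Fin (i + 1)) (hu _) i ?_)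
    rw [Fintype.card_fin]
    exact Nat.lt_succ_self i

theorem com_F {Z Z' : LC} {z : R.Hom Z Z'} (hz : O.Com z) {K W : LC} (x : R.Hom K (Z.prod W)) :
    O.F (R.comp x (R.tens z W)) = R.comp (O.F x) (R.tens z W) := hz x

/-- the action on a term -/
theorem act_term (o : Orient R) {K Z : LC} (φ : P.Hom K Z →+ P.Hom K Z)
    (hφ : ∀ {σ : Type} [Fintype σ] (y : R.Hom K ((LC.G σ).prod Z)), φ (lf P y) = lf P (O.F y))
    (L : List ℕ) (hL : O.Com (o.eL L)) (c : R.Hom K ((Cn (deg L)).prod Z)) :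
    φ (P.term c (P.bL o L)) = P.term (O.F c) (P.bL o L) := by
  have hg := good_com O
  by_cases hn : L.length ≤ Fintype.card (Idx L)
  · have hT : L.length + (exists_compl hn).choose.card = Fintype.card (Idx L) :=
      (exists_compl hn).choose_spec
    set T := (exists_compl hn).choose with hTdef
    have hb : P.toGBiv.bun (K := LC.Pr (Idx L) L.length) (ContinuousMap.id _) =
        P.comp (P.J (PMap.ofCont (K := LC.Pr (Idx L) L.length) (L := LC.G (Idx L)) (Pr.toG T hT)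
          (Pr.continuous_toG T hT))) (P.g (Idx L)) := by
      unfold GBiv.bun
      rw [dif_pos hn]
      rfl
    set E : R.Hom (Cn (deg L)) (LC.G (Idx L)) := R.comp (o.eL L)
      (R.J (PMap.ofCont (K := LC.Pr (Idx L) L.length) (L := LC.G (Idx L)) (Pr.toG T hT)
          (Pr.continuous_toG T hT))) with hE
    have hEc : O.Com E := hg.comp _ _ hL (hg.J _)
    have h1 : P.bL o L = P.comp (P.inc E) (P.g (Idx L)) := by
      rw [← P.eL_bun o L, hb, hE, P.inc_comp, P.inc_J, P.assoc]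
    have h2 : ∀ c : R.Hom K ((Cn (deg L)).prod Z),
        P.term c (P.bL o L) = lf P (R.comp c (R.tens E Z)) := by
      intro c
      rw [h1]
      unfold PRTheory.term lf
      rw [P.inc_comp c, P.inc_tens, P.tens_comp]
      simp only [P.assoc]
      rfl
    rw [h2, h2, hφ]
    exact congrArg (lf P) (hEc c)
  · have hb : P.toGBiv.bun (K := LC.Pr (Idx L) L.length) (ContinuousMap.id _) = 0 := by
      unfold GBiv.bun
      rw [dif_neg hn]
    have h1 : P.bL o L = 0 := by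
      rw [← P.eL_bun o L, hb]
      exact Pool.Agent.Helper33.Stab.comp_zero33 _
    have h2 : ∀ c : R.Hom K ((Cn (deg L)).prod Z), P.term c (P.bL o L) = 0 := by
      intro c
      rw [h1]
      unfold PRTheory.term
      have h3 : P.tens (0 : P.Hom (Cn (deg L)) LC.point) Z = 0 :=
        Pool.Agent.Helper33.Stab.tens_zero33 (R := P.toGBiv.toBiv) Z
      rw [h3]
      have h4 : P.comp (0 : P.Hom ((Cn (deg L)).prod Z) (LC.point.prod Z))
          (P.J (PMap.ofHomeo (LC.lunit Z))) = 0 :=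
        Pool.Agent.Helper33.Stab.zero_comp33 (R := P.toGBiv.toBiv) _
      rw [h4]
      exact Pool.Agent.Helper33.Stab.comp_zero33 (R := P.toGBiv.toBiv) _
    rw [h2, h2, _root_.map_zero]

theorem com_bL (o : Orient R) (Φ : BivHom P.toBiv R)
    (hβ : ∀ i, 0 < i → O.Com (Φ.F (P.b o i))) (L : List ℕ) (hL : ∀ i ∈ L, 0 < i) :
    O.Com (Φ.F (P.bL o L)) := by
  have hg := good_com O
  induction L with
  | nil =>
    change O.Com (Φ.F (P.J _))
    rw [Φ.J]
    exact hg.J _
  | cons i L ih =>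
    have h1 : O.Com (Φ.F (P.bL o L)) := ih (fun j hj => hL j (List.mem_cons_of_mem _ hj))
    have h2 : O.Com (Φ.F (P.b o i)) := hβ i (hL i List.mem_cons_self)
    change O.Com (Φ.F (P.comp (P.J (PMap.ofHomeo (CnAdd (deg L) i).symm))
      (P.comp (P.comp (P.tens (P.bL o L) (Cn i)) (P.ltens LC.point (P.b o i)))
        (P.J (PMap.ofHomeo (LC.lunit LC.point))))))
    rw [Φ.comp, Φ.comp, Φ.comp, Φ.J, Φ.J, Φ.tens, Φ.ltens]
    exact hg.comp _ _ (hg.J _) (hg.comp _ _ (hg.comp _ _ (hg.tens _ _ h1)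
      (good_ltens hg _ _ h2)) (hg.J _))

theorem cancel {K L M : LC} (e : L ≃ₜ M) {x y : R.Hom K L}
    (h : R.comp x (jh R e) = R.comp y (jh R e)) : x = y := by
  have h3 := congrArg (fun t => R.comp t (jh R e.symm)) h
  rw [R.assoc, R.assoc, Pool.Agent.Helper63.Stab.jh_comp_symm', R.comp_id, R.comp_id] at h3
  exact h3

theorem com_eval (o : Orient R)
    (hu : ∀ (S : Type) [Fintype S], O.Com (o.u S)) (Φ : BivHom P.toBiv R)
    (hΦ : ∀ {K Z : LC} (x : R.Hom K Z), Φ.F (P.inc x) = x)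
    (hβ : ∀ i, 0 < i → O.Com (Φ.F (P.b o i))) (κ : Type) [Fintype κ] :
    O.Com (Φ.F (P.g κ)) := by
  classical
  intro K W x
  obtain ⟨φ, hφ⟩ := exists_act P O K W
  obtain ⟨c, hc⟩ := PO7.psi_surj P o K W (lf P x)
  have hc1 : lf P x = ∑ L ∈ c.support, P.term (c L) (P.bL o L.1) := by
    rw [← hc, PO7.psi_apply]
    rfl
  have hc2 : lf P (O.F x) = ∑ L ∈ c.support, P.term (O.F (c L)) (P.bL o L.1) := by
    rw [← hφ, hc1, _root_.map_sum]
    refine Finset.sum_congr rfl fun L _ => ?_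
    exact act_term P O o φ hφ L.1 (good_eL (good_com O) o hu L.1) (c L)
  have hlf : ∀ y : R.Hom K ((LC.G κ).prod W), Φ.F (lf P y) =
      R.comp (R.comp y (R.tens (Φ.F (P.g κ)) W)) (jh R (LC.lunit W)) := by
    intro y
    unfold lf
    rw [Φ.comp, Φ.comp, Φ.tens, hΦ, ← R.assoc]
    congr 1
    exact Φ.J _
  have hte : ∀ (L : List ℕ) (d : R.Hom K ((Cn (deg L)).prod W)), Φ.F (P.term d (P.bL o L)) =
      R.comp (R.comp d (R.tens (Φ.F (P.bL o L)) W)) (jh R (LC.lunit W)) := by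
    intro L d
    unfold PRTheory.term
    rw [Φ.comp, Φ.comp, Φ.tens, hΦ, ← R.assoc]
    congr 1
    exact Φ.J _
  have hA := congrArg Φ.F hc1
  have hB := congrArg Φ.F hc2
  rw [hlf, Φ.map_sum] at hA hB
  simp only [hte] at hA hB
  have hA2 := congrArg O.F hA
  rw [map_sum] at hA2
  have h1 : ∀ L ∈ c.support, O.F (R.comp (R.comp (c L) (R.tens (Φ.F (P.bL o L.1)) W))
      (jh R (LC.lunit W))) = R.comp (R.comp (O.F (c L)) (R.tens (Φ.F (P.bL o L.1)) W))
      (jh R (LC.lunit W)) := by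
    intro L _
    unfold jh
    rw [O.post]
    congr 1
    exact com_bL P O o Φ hβ L.1 L.2.2 (c L)
  rw [Finset.sum_congr rfl h1, ← hB] at hA2
  have h2 : O.F (R.comp (R.comp x (R.tens (Φ.F (P.g κ)) W)) (jh R (LC.lunit W))) =
      R.comp (O.F (R.comp x (R.tens (Φ.F (P.g κ)) W))) (jh R (LC.lunit W)) := O.post _ _
  rw [h2] at hA2
  exact cancel (L := LC.point.prod W) (LC.lunit W) hA2

end Pool.Agent.Helper60.StabFC
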