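import Pool.Agent.Helper68.Stab.Cogroup

/-! The functor represented by a pointed space, and integral multiples in `[ℂ × W, Z]`. -/

open CategoryTheory Topology Filter Set Opposite

noncomputable section

namespace Pool.Agent.Helper1.Stab

/-- the functor `[-, Z]` -/
def repF (Z : PT) : LCᵒᵖ ⥤ Type where
  obj K := HMap K.unop Z
  map {K L} f := TypeCat.ofHom fun x => HMap.comp (Y := Z) x (f.unop : HMap L.unop K.unop.plus)
  map_id K := by
    ext x
    exact HMap.comp_id x
  map_comp {K L M} f g := by
    ext x
    exact (HMap.comp_assoc x (f.unop : HMap L.unop K.unop.plus)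
      (g.unop : HMap M.unop L.unop.plus)).symm

theorem pb_repF (Z : PT) {K L : LC} (f : PMap K L.plus) (g : PMap L Z) :
    pb (repF Z) f (g.cls : (repF Z).obj (op L)) = ((g.comp f).cls : (repF Z).obj (op K)) := rfl

theorem copair_cls_inl {K L : LC} {Z : PT} (f : PMap K Z) (g : PMap L Z) :
    (f.copair g).comp (PMap.inl K L) = f := by
  ext k; rfl

theorem copair_cls_inr {K L : LC} {Z : PT} (f : PMap K Z) (g : PMap L Z) :
    (f.copair g).comp (PMap.inr K L) = g := by
  ext k; rfl

theorem copair_eta {K L : LC} {Z : PT} (f : PMap (K.sum L) Z) :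
    (f.comp (PMap.inl K L)).copair (f.comp (PMap.inr K L)) = f := by
  ext k
  rcases k with k | k <;> rfl

theorem isAddFun_repF (Z : PT) : IsAddFun (repF Z) where
  empty := by
    refine ⟨(PMap.zero LC.empty Z).cls, ?_⟩
    refine HMap.ind fun f => ?_
    congr 1
    ext k
    exact k.elim
  sum K L := by
    constructor
    · refine HMap.ind fun f => ?_
      refine HMap.ind fun g => ?_
      intro h
      have h1 : (f.comp (PMap.inl K L)).cls = (g.comp (PMap.inl K L)).cls := congrArg Prod.fst h
      have h2 : (f.comp (PMap.inr K L)).cls = (g.comp (PMap.inr K L)).cls := congrArg Prod.snd h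
      rw [PMap.cls_eq] at h1 h2
      have h3 := h1.copair h2
      rw [copair_eta, copair_eta] at h3
      exact PMap.cls_eq.2 h3
    · rintro ⟨x, y⟩
      revert x y
      refine HMap.ind fun f => ?_
      refine HMap.ind fun g => ?_
      refine ⟨(f.copair g).cls, ?_⟩
      exact Prod.ext (congrArg PMap.cls (copair_cls_inl f g))
        (congrArg PMap.cls (copair_cls_inr f g))

/-- the sum in `[ℂ × W, Z]` on representatives -/
theorem add_cls {Z : PT} {W : LC} (f g : PMap (LC.C.prod W) Z) :
    (isAddFun_repF Z).add (K := W) (f.cls : (repF Z).obj (op (LC.C.prod W)))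
      (g.cls : (repF Z).obj (op (LC.C.prod W))) =
    (((f.copair g).comp (pinchK W)).cls : (repF Z).obj (op (LC.C.prod W))) := by
  unfold IsAddFun.add IsAddFun.op2
  rw [← pb_repF]
  congr 1
  apply (isAddFun_repF Z).pair_ext
  · rw [(isAddFun_repF Z).pair_inl, pb_repF, copair_cls_inl]
  · rw [(isAddFun_repF Z).pair_inr, pb_repF, copair_cls_inr]

/-- the zero element on representatives -/
theorem zero_cls (Z : PT) (W : LC) :
    (isAddFun_repF Z).zero W = ((PMap.zero W Z).cls : (repF Z).obj (op W)) := by
  have h := (isAddFun_repF Z).empty.choose_spec ((PMap.zero LC.empty Z).cls)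
  unfold IsAddFun.zero
  rw [← h, pb_repF]
  congr 1

/-- the `n`-th multiple in the abelian group `[ℂ × W, Z]` -/
def zs (Z : PT) {W : LC} (n : ℤ) (x : HMap (LC.C.prod W) Z) : HMap (LC.C.prod W) Z :=
  letI : AddCommGroup ((repF Z).obj (op (LC.C.prod W))) := (isAddFun_repF Z).grp W
  (n • (show (repF Z).obj (op (LC.C.prod W)) from x) : (repF Z).obj (op (LC.C.prod W)))

/-- the sum in the abelian group `[ℂ × W, Z]` -/
def zadd (Z : PT) {W : LC} (x y : HMap (LC.C.prod W) Z) : HMap (LC.C.prod W) Z :=
  (isAddFun_repF Z).add (K := W) (x : (repF Z).obj (op (LC.C.prod W))) y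

end Pool.Agent.Helper1.Stab
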