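import Pool.Agent.Helper1.Stab.Yoneda
import Pool.Agent.Helper60.Stab.RepF

/-! The class map of a prespectrum is additive for the pinch map in the first coordinate. -/

open CategoryTheory Topology Filter Set Opposite

noncomputable section

namespace Pool.Agent.Helper1.Stab

/-- `ℂ^(j+1) × K = ℂ × (ℂ^j × K)`, the first coordinate -/
def consH (j : ℕ) (K : LC) :
    (LC.cpow (Fin (j + 1))).prod K ≃ₜ LC.C.prod ((LC.cpow (Fin j)).prod K) where
  toFun := fun x => (x.1 0, (fun i => x.1 i.succ, x.2))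
  invFun := fun x => ((Fin.cons x.1 x.2.1 : Fin (j + 1) → ℂ), x.2.2)
  left_inv := by
    rintro ⟨v, k⟩
    refine Prod.ext (funext fun i => ?_) rfl
    refine Fin.cases ?_ (fun i => ?_) i <;> simp
  right_inv := by
    rintro ⟨z, v, k⟩
    simp
  continuous_toFun := by fun_prop
  continuous_invFun := by
    refine Continuous.prodMk (continuous_pi fun i => ?_) (by fun_prop)
    refine Fin.cases ?_ (fun i => ?_) i
    · simp only [Fin.cons_zero]; fun_prop
    · simp only [Fin.cons_succ]; fun_prop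

/-- a map on `ℂ × (ℂ^j × K)` as a representative of stage `j + 1` -/
def unc {Y : Prespectrum} {j : ℕ} {K : LC}
    (f : PMap (LC.C.prod ((LC.cpow (Fin j)).prod K)) (Y.sp (2 * (j + 1)))) : Y.Rep (j + 1) K :=
  f.comp (PMap.ofHomeo (consH j K))

theorem unc_sigC {Y : Prespectrum} {j : ℕ} {K : LC} (f : Y.Rep j K) :
    unc (Y := Y) (j := j) (K := K) (Y.sigC f) = f.next := by
  ext x; rfl

/-- An element on the double of a test space, pulled back along a pinch map. -/
theorem GF.Exact.pinch_add {H : GF} (hH : H.Exact) (h0 : H.Red) (b : ℕ) (K : Test)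
    (w : (H.h b).obj (op (Test.dbl9 K))) (p : PMap K.obj (K.obj.sum K.obj).plus)
    (p1 : (((PMap.id K.obj).copair (PMap.zero K.obj K.obj.plus)).comp p).Homotopic
      (PMap.id K.obj))
    (p2 : (((PMap.zero K.obj K.obj.plus).copair (PMap.id K.obj)).comp p).Homotopic
      (PMap.id K.obj)) :
    pbT (H.h b) (K := K) (L := Test.dbl9 K) p w =
      pbT (H.h b) (K := K) (L := Test.dbl9 K) (PMap.inl K.obj K.obj) w +
      pbT (H.h b) (K := K) (L := Test.dbl9 K) (PMap.inr K.obj K.obj) w := by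
  let c1 : PMap (Test.dbl9 K).obj K.obj.plus :=
    (PMap.id K.obj).copair (PMap.zero K.obj K.obj.plus)
  let c2 : PMap (Test.dbl9 K).obj K.obj.plus :=
    (PMap.zero K.obj K.obj.plus).copair (PMap.id K.obj)
  let i1 : PMap K.obj (Test.dbl9 K).obj.plus := PMap.inl K.obj K.obj
  let i2 : PMap K.obj (Test.dbl9 K).obj.plus := PMap.inr K.obj K.obj
  let p' : PMap K.obj (Test.dbl9 K).obj.plus := p
  have q1 : ∀ x : (H.h b).obj (op K), pbT (H.h b) p' (pbT (H.h b) c1 x) = x := by
    intro x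
    rw [← pbT_comp]
    have e : pbT (H.h b) (PMap.comp c1 p') = pbT (H.h b) (PMap.id K.obj) :=
      pbT_homotopic (H.h b) (K := K) (L := K) p1
    rw [e]
    exact pbT_id (H.h b) K x
  have q2 : ∀ x : (H.h b).obj (op K), pbT (H.h b) p' (pbT (H.h b) c2 x) = x := by
    intro x
    rw [← pbT_comp]
    have e : pbT (H.h b) (PMap.comp c2 p') = pbT (H.h b) (PMap.id K.obj) :=
      pbT_homotopic (H.h b) (K := K) (L := K) p2
    rw [e]
    exact pbT_id (H.h b) K x
  have a1 : ∀ x : (H.h b).obj (op K), pbT (H.h b) i1 (pbT (H.h b) c1 x) = x := by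
    intro x
    rw [← pbT_comp]
    exact pbT_id (H.h b) K x
  have a2 : ∀ x : (H.h b).obj (op K), pbT (H.h b) i2 (pbT (H.h b) c2 x) = x := by
    intro x
    rw [← pbT_comp]
    exact pbT_id (H.h b) K x
  have b1 : ∀ x : (H.h b).obj (op K), pbT (H.h b) i1 (pbT (H.h b) c2 x) = 0 := by
    intro x
    rw [← pbT_comp]
    exact h0.pbT_zeroMap b (K := K) (L := K) x
  have b2 : ∀ x : (H.h b).obj (op K), pbT (H.h b) i2 (pbT (H.h b) c1 x) = 0 := by
    intro x
    rw [← pbT_comp]
    exact h0.pbT_zeroMap b (K := K) (L := K) x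
  have key : w = pbT (H.h b) c1 (pbT (H.h b) i1 w) + pbT (H.h b) c2 (pbT (H.h b) i2 w) := by
    have h := hH.dbl_zero h0 b K
      (w - (pbT (H.h b) c1 (pbT (H.h b) i1 w) + pbT (H.h b) c2 (pbT (H.h b) i2 w)))
      (by
        change pbT (H.h b) i1 _ = 0
        rw [pbT_sub, pbT_add, a1, b1, add_zero, sub_self])
      (by
        change pbT (H.h b) i2 _ = 0
        rw [pbT_sub, pbT_add, b2, a2, zero_add, sub_self])
    exact sub_eq_zero.1 h
  change pbT (H.h b) p' w = pbT (H.h b) i1 w + pbT (H.h b) i2 w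
  conv_lhs => rw [key]
  rw [pbT_add, q1, q2]

/-- the class of a representative on the double, pulled back along a pinch map -/
theorem cls_pinch {Y : Prespectrum} {b j : ℕ} {K : Test} (F : (Y.upp b).Rep j (Test.dbl9 K).obj)
    (p : PMap K.obj (K.obj.sum K.obj).plus)
    (p1 : (((PMap.id K.obj).copair (PMap.zero K.obj K.obj.plus)).comp p).Homotopic
      (PMap.id K.obj))
    (p2 : (((PMap.zero K.obj K.obj.plus).copair (PMap.id K.obj)).comp p).Homotopic
      (PMap.id K.obj)) :
    (hT Y).cls (b := b) (j := j) (K := K) (PMap.comp F (PMap.ltens (LC.cpow (Fin j)) p)) =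
      (hT Y).cls (b := b) (j := j) (K := K)
        (PMap.comp F (PMap.ltens (LC.cpow (Fin j)) (PMap.inl K.obj K.obj))) +
      (hT Y).cls (b := b) (j := j) (K := K)
        (PMap.comp F (PMap.ltens (LC.cpow (Fin j)) (PMap.inr K.obj K.obj))) := by
  have h := ((hT Y).exact).pinch_add (hP_red Y) b K ((hT Y).cls F) p p1 p2
  have e0 := (hT Y).map_cls (b := b) (j := j) (K := K) (L := Test.dbl9 K) p F
  have e1 := (hT Y).map_cls (b := b) (j := j) (K := K) (L := Test.dbl9 K)
    (PMap.inl K.obj K.obj) F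
  have e2 := (hT Y).map_cls (b := b) (j := j) (K := K) (L := Test.dbl9 K)
    (PMap.inr K.obj K.obj) F
  rw [← e0, ← e1, ← e2]
  exact h

/-- distributivity -/
def distR (j : ℕ) (A : LC) : (LC.cpow (Fin j)).prod ((LC.C.prod A).sum (LC.C.prod A)) ≃ₜ
    (LC.C.prod ((LC.cpow (Fin j)).prod A)).sum (LC.C.prod ((LC.cpow (Fin j)).prod A)) where
  toFun := fun x => Sum.elim (fun y => Sum.inl (y.1, (x.1, y.2)))
    (fun y => Sum.inr (y.1, (x.1, y.2))) x.2
  invFun := Sum.elim (fun y => (y.2.1, Sum.inl (y.1, y.2.2))) (fun y => (y.2.1, Sum.inr (y.1, y.2.2)))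
  left_inv := by
    rintro ⟨v, (⟨z, a⟩ | ⟨z, a⟩)⟩ <;> rfl
  right_inv := by
    rintro (⟨z, v, a⟩ | ⟨z, v, a⟩) <;> rfl
  continuous_toFun := by
    have h1 : Continuous (fun x : ((Fin j → ℂ) × (ℂ × A)) ⊕ ((Fin j → ℂ) × (ℂ × A)) =>
      (Sum.elim (fun y => Sum.inl (y.2.1, (y.1, y.2.2)))
        (fun y => Sum.inr (y.2.1, (y.1, y.2.2))) x :
        (ℂ × ((Fin j → ℂ) × A)) ⊕ (ℂ × ((Fin j → ℂ) × A)))) := by
      refine Continuous.sumElim (continuous_inl.comp (by fun_prop))
        (continuous_inr.comp (by fun_prop))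
    have h2 := h1.comp (Homeomorph.prodSumDistrib (X := Fin j → ℂ) (Y := ℂ × A)
      (Z := ℂ × A)).continuous
    refine h2.congr ?_
    rintro ⟨v, (⟨z, a⟩ | ⟨z, a⟩)⟩ <;> rfl
  continuous_invFun := by
    refine Continuous.sumElim ?_ ?_
    · refine Continuous.prodMk (by fun_prop) (continuous_inl.comp (by fun_prop))
    · refine Continuous.prodMk (by fun_prop) (continuous_inr.comp (by fun_prop))

/-- the pinch map commutes with homeomorphisms -/
theorem pinchK_homeo {A B : LC} (e : A ≃ₜ B) {Z : PT} (f g : PMap (LC.C.prod B) Z) :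
    ((f.copair g).comp (pinchK B)).comp (PMap.ltens LC.C (PMap.ofHomeo e)) =
      ((f.comp (PMap.ltens LC.C (PMap.ofHomeo e))).copair
        (g.comp (PMap.ltens LC.C (PMap.ofHomeo e)))).comp (pinchK A) := by
  ext ⟨z, a⟩
  change (f.copair g).plus ((PMap.ofHomeo (dist LC.C LC.C B)).plus
    (smashPt (LC.C.sum LC.C) B (pinch z, ((e a : B) : OnePoint B)))) =
    ((f.comp (PMap.ltens LC.C (PMap.ofHomeo e))).copair
        (g.comp (PMap.ltens LC.C (PMap.ofHomeo e)))).plus
      ((PMap.ofHomeo (dist LC.C LC.C A)).plus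
        (smashPt (LC.C.sum LC.C) A (pinch z, (a : OnePoint A))))
  rcases pinch z with _ | (w | w) <;> rfl

/-- PACKET C1. The class map is additive for the pinch map in the first coordinate. -/
theorem cls_unc_pinch {Y : Prespectrum} : ∀ (j b : ℕ) (K : Test)
    (f g : PMap (LC.C.prod ((LC.cpow (Fin j)).prod K.obj)) ((Y.upp b).sp (2 * (j + 1)))),
    (hT Y).cls (b := b) (j := j + 1) (K := K) (unc (Y := Y.upp b)
      ((f.copair g).comp (pinchK ((LC.cpow (Fin j)).prod K.obj)))) =
      (hT Y).cls (b := b) (j := j + 1) (K := K) (unc (Y := Y.upp b) f) +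
      (hT Y).cls (b := b) (j := j + 1) (K := K) (unc (Y := Y.upp b) g)
  | 0, b, K, f, g => by
    apply sig_inj (hT Y).H b K
    have h1 : ∀ x y : ((hT Y).H.h b).obj (op K), ((hT Y).H.σ b).hom.app (op K) (x + y) =
      ((hT Y).H.σ b).hom.app (op K) x + ((hT Y).H.σ b).hom.app (op K) y := fun x y => map_add _ x y
    rw [h1]
    have s1 := Levels.sig_cls (b := b) (j := 0) (K := K) (unc (Y := Y.upp b)
      ((f.copair g).comp (pinchK ((LC.cpow (Fin 0)).prod K.obj))))
    have s2 := Levels.sig_cls (b := b) (j := 0) (K := K) (unc (Y := Y.upp b) f)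
    have s3 := Levels.sig_cls (b := b) (j := 0) (K := K) (unc (Y := Y.upp b) g)
    rw [s1, s2, s3]
    let F : (Y.upp (b + 1)).Rep 0 (Test.dbl9 (Test.cx.obj K)).obj :=
      (f.copair g).comp (PMap.ofHomeo (distR 0 K.obj))
    have h2 := cls_pinch (Y := Y) (b := b + 1) (j := 0) (K := Test.cx.obj K) F (pinchK K.obj)
      (pinchK_unit_left K.obj) (pinchK_unit_right K.obj)
    have z0 : ∀ (z : ℂ) (v : Fin 0 → ℂ), (z, (fun i : Fin 0 => Fin.lastCases (motive := fun _ => ℂ) z v i.succ)) = (z, v) := by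
      intro z v
      refine Prod.ext rfl (Subsingleton.elim _ _)
    have key : ∀ (f : PMap (LC.C.prod ((LC.cpow (Fin 0)).prod K.obj)) ((Y.upp b).sp (2 * (0 + 1))))
      (v : Fin 0 → ℂ) (z : ℂ) (k : K.obj),
      Levels.sh (unc (Y := Y.upp b) f) (v, (z, k)) = f (z, (v, k)) := by
      intro f v z k
      rw [Levels.sh_apply]
      change f (Fin.lastCases (motive := fun _ => ℂ) z v 0, (fun i : Fin 0 => Fin.lastCases (motive := fun _ => ℂ) z v i.succ, k)) = f (z, (v, k))
      have e1 : Fin.lastCases (motive := fun _ => ℂ) z v (0 : Fin 1) = z := by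
        rw [show (0 : Fin 1) = Fin.last 0 from rfl, Fin.lastCases_last]
      have e2 : (fun i : Fin 0 => Fin.lastCases (motive := fun _ => ℂ) z v i.succ) = v :=
        Subsingleton.elim _ _
      rw [e1, e2]
    refine Eq.trans ?_ (h2.trans ?_)
    · refine congrArg (fun g => (hT Y).cls (b := b + 1) (j := 0) (K := Test.cx.obj K) g) ?_
      ext ⟨v, z, k⟩
      rw [key]
      change (f.copair g).plus ((PMap.ofHomeo (dist LC.C LC.C _)).plus
        (smashPt (LC.C.sum LC.C) _ (pinch z, @OnePoint.some ((Fin 0 → ℂ) × K.obj.carrier) (v, k)))) =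
        F.plus (smashPt (LC.cpow (Fin 0)) _ ((v : OnePoint (Fin 0 → ℂ)),
          (PMap.ofHomeo (dist LC.C LC.C K.obj)).plus
          (smashPt (LC.C.sum LC.C) K.obj (pinch z, @OnePoint.some K.obj.carrier k))))
      rcases pinch z with _ | (w | w) <;> rfl
    · congr 1
      · refine congrArg (fun g => (hT Y).cls (b := b + 1) (j := 0) (K := Test.cx.obj K) g) ?_
        ext ⟨v, z, k⟩
        exact (key f v z k).symm
      · refine congrArg (fun g => (hT Y).cls (b := b + 1) (j := 0) (K := Test.cx.obj K) g) ?_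
        ext ⟨v, z, k⟩
        exact (key g v z k).symm
  | j + 1, b, K, f, g => by
    apply sig_inj (hT Y).H b K
    have h1 : ∀ x y : ((hT Y).H.h b).obj (op K), ((hT Y).H.σ b).hom.app (op K) (x + y) =
      ((hT Y).H.σ b).hom.app (op K) x + ((hT Y).H.σ b).hom.app (op K) y := fun x y => map_add _ x y
    rw [h1]
    have s1 := Levels.sig_cls (b := b) (j := j + 1) (K := K) (unc (Y := Y.upp b)
      ((f.copair g).comp (pinchK ((LC.cpow (Fin (j + 1))).prod K.obj))))
    have s2 := Levels.sig_cls (b := b) (j := j + 1) (K := K) (unc (Y := Y.upp b) f)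
    have s3 := Levels.sig_cls (b := b) (j := j + 1) (K := K) (unc (Y := Y.upp b) g)
    rw [s1, s2, s3]
    let t : ∀ f : PMap (LC.C.prod ((LC.cpow (Fin (j + 1))).prod K.obj))
        ((Y.upp b).sp (2 * (j + 1 + 1))),
      PMap (LC.C.prod ((LC.cpow (Fin j)).prod (Test.cx.obj K).obj))
        ((Y.upp (b + 1)).sp (2 * (j + 1))) := fun f =>
      f.comp (PMap.ltens LC.C (PMap.ofHomeo (Levels.shH j K.obj)))
    have ht : ∀ f, Levels.sh (unc (Y := Y.upp b) (j := j + 1) (K := K.obj) f) =
        unc (Y := Y.upp (b + 1)) (j := j) (K := (Test.cx.obj K).obj) (t f) := by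
      intro f
      ext ⟨v, z, k⟩
      rw [Levels.sh_apply]
      change f (Fin.lastCases (motive := fun _ => ℂ) z v 0, (fun i : Fin (j + 1) =>
        Fin.lastCases (motive := fun _ => ℂ) z v i.succ, k)) =
        f (v 0, (fun i : Fin (j + 1) => Fin.lastCases (motive := fun _ => ℂ) z
          (fun i : Fin j => v i.succ) i, k))
      have h0 : Fin.lastCases (motive := fun _ => ℂ) z v (0 : Fin (j + 2)) = v 0 := by
        rw [show (0 : Fin (j + 2)) = (0 : Fin (j + 1)).castSucc from rfl, Fin.lastCases_castSucc]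
      have h1 : (fun i : Fin (j + 1) => Fin.lastCases (motive := fun _ => ℂ) z v i.succ) =
          fun i => Fin.lastCases (motive := fun _ => ℂ) z (fun i : Fin j => v i.succ) i := by
        funext i
        refine Fin.lastCases ?_ (fun i => ?_) i
        · rw [Fin.succ_last, Fin.lastCases_last, Fin.lastCases_last]
        · rw [Fin.succ_castSucc, Fin.lastCases_castSucc, Fin.lastCases_castSucc]
      rw [h0, h1]
    have h3 := cls_unc_pinch j (b + 1) (Test.cx.obj K) (t f) (t g)
    rw [ht, ht, ht]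
    refine Eq.trans ?_ h3
    refine congrArg (fun g => (hT Y).cls (b := b + 1) (j := j + 1) (K := Test.cx.obj K) g) ?_
    refine congrArg (fun g => unc (Y := Y.upp (b + 1)) (j := j) (K := (Test.cx.obj K).obj) g) ?_
    exact pinchK_homeo (Levels.shH j K.obj) f g

/-- the class map on homotopy classes -/
def hcl (Y : Prespectrum) {b j : ℕ} {K : Test}
    (x : HMap (LC.C.prod ((LC.cpow (Fin j)).prod K.obj)) ((Y.upp b).sp (2 * (j + 1)))) :
    (((hT Y).H.h b).obj (op K) : Type) :=
  Quotient.lift (fun f => (hT Y).cls (b := b) (j := j + 1) (K := K) (unc (Y := Y.upp b) f))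
    (fun f g h => (hT Y).cls_homotopic (PMap.Homotopic.comp_left h _)) x

theorem hcl_cls (Y : Prespectrum) {b j : ℕ} {K : Test}
    (f : PMap (LC.C.prod ((LC.cpow (Fin j)).prod K.obj)) ((Y.upp b).sp (2 * (j + 1)))) :
    hcl Y (b := b) (j := j) (K := K) f.cls =
      (hT Y).cls (b := b) (j := j + 1) (K := K) (unc (Y := Y.upp b) f) := rfl

theorem hcl_zadd (Y : Prespectrum) {b j : ℕ} {K : Test}
    (x y : HMap (LC.C.prod ((LC.cpow (Fin j)).prod K.obj)) ((Y.upp b).sp (2 * (j + 1)))) :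
    hcl Y (b := b) (j := j) (K := K) (zadd ((Y.upp b).sp (2 * (j + 1))) x y) =
      hcl Y (b := b) (j := j) (K := K) x + hcl Y (b := b) (j := j) (K := K) y := by
  revert x y
  refine HMap.ind fun f => ?_
  refine HMap.ind fun g => ?_
  have h := add_cls (Z := (Y.upp b).sp (2 * (j + 1))) (W := (LC.cpow (Fin j)).prod K.obj) f g
  exact (congrArg (hcl Y (b := b) (j := j) (K := K)) h).trans (cls_unc_pinch j b K f g)

theorem hcl_zs (Y : Prespectrum) {b j : ℕ} {K : Test} (n : ℤ)
    (x : HMap (LC.C.prod ((LC.cpow (Fin j)).prod K.obj)) ((Y.upp b).sp (2 * (j + 1)))) :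
    hcl Y (b := b) (j := j) (K := K) (zs ((Y.upp b).sp (2 * (j + 1))) n x) =
      n • hcl Y (b := b) (j := j) (K := K) x := by
  letI : AddCommGroup ((repF ((Y.upp b).sp (2 * (j + 1)))).obj
    (op (LC.C.prod ((LC.cpow (Fin j)).prod K.obj)))) :=
    (isAddFun_repF ((Y.upp b).sp (2 * (j + 1)))).grp ((LC.cpow (Fin j)).prod K.obj)
  let φ : ((repF ((Y.upp b).sp (2 * (j + 1)))).obj
    (op (LC.C.prod ((LC.cpow (Fin j)).prod K.obj)))) →+ (((hT Y).H.h b).obj (op K) : Type) :=
    AddMonoidHom.mk' (fun x => hcl Y (b := b) (j := j) (K := K) x)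
      (fun x y => hcl_zadd Y (b := b) (j := j) (K := K) x y)
  exact map_zsmul φ n (show (repF ((Y.upp b).sp (2 * (j + 1)))).obj
    (op (LC.C.prod ((LC.cpow (Fin j)).prod K.obj))) from x)

end Pool.Agent.Helper1.Stab
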