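import Pool.Agent.Helper1.Stab.Model
import Pool.Agent.Helper60.Stab.RepF

/-! Difference maps `ℂ × W → S² ∧ Z₊` of two maps `W → Z` that agree where a cut-off function is
less than `1`. -/

open CategoryTheory Topology Filter Set Opposite

noncomputable section

namespace Pool.Agent.Helper1.Stab

/-- Two maps `W → Z` and a cut-off function which is `1` where they are different; the images are
contained in a compact set. -/
structure Dif (W : LC) (Z : Type) [TopologicalSpace Z] where
  F1 : C(W, Z)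
  F0 : C(W, Z)
  ρ : C(W, ℝ)
  nonneg : ∀ w, 0 ≤ ρ w
  le_one : ∀ w, ρ w ≤ 1
  vanish : Tendsto ρ (cocompact W) (𝓝 0)
  agree : ∀ w, ρ w ≠ 1 → F1 w = F0 w
  S : Set Z
  cpt : IsCompact S
  mem1 : ∀ w, F1 w ∈ S
  mem0 : ∀ w, F0 w ∈ S

/-- `min(2s, 2 - 2s)`, `s = squash t` -/
def eta (t : ℝ) : ℝ := min (2 * (squash t : ℝ)) (2 - 2 * (squash t : ℝ))

variable {W : LC} {Z : Type} [TopologicalSpace Z]

/-- the coordinates of the difference map -/
def Dif.uu (A : Dif W Z) (x : LC.C.prod W) : Fin 2 → unitInterval :=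
  Fin.cons (squash x.1.re) (fun _ : Fin 1 =>
    Set.projIcc 0 1 zero_le_one (eta x.1.im * A.ρ x.2))

/-- the difference map, as a function -/
def Dif.fn (A : Dif W Z) (x : LC.C.prod W) : Sph 2 Z :=
  Sph.mk (Fin.cons (squash x.1.re) (fun _ : Fin 1 =>
    Set.projIcc 0 1 zero_le_one (eta x.1.im * A.ρ x.2)))
    (if (squash x.1.im : ℝ) ≤ 1 / 2 then A.F1 x.2 else A.F0 x.2)

theorem continuous_squash_d60 : Continuous squash := by
  refine Continuous.subtype_mk ?_ _
  refine (continuous_const.add (continuous_id.div (continuous_const.add continuous_abs) ?_)).div_const 2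
  intro x
  have : 0 ≤ |x| := abs_nonneg x
  change (1 : ℝ) + |x| ≠ 0
  positivity

theorem continuous_eta60 : Continuous eta := by
  have h : Continuous fun t => (squash t : ℝ) := continuous_subtype_val.comp continuous_squash_d60
  exact (continuous_const.mul h).min (continuous_const.sub (continuous_const.mul h))

theorem Dif.continuous_uu (A : Dif W Z) : Continuous A.uu := by
  refine continuous_pi fun i => ?_
  refine Fin.cases ?_ (fun i => ?_) i
  · exact continuous_squash_d60.comp (Complex.continuous_re.comp continuous_fst)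
  · exact (continuous_projIcc (h := zero_le_one' ℝ)).comp
      ((continuous_eta60.comp (Complex.continuous_im.comp continuous_fst)).mul
        (A.ρ.continuous.comp continuous_snd))

/-- Continuity of the difference map. -/
theorem Dif.fn_cont (A : Dif W Z) : Continuous A.fn := by
  have e : A.fn = fun x : LC.C.prod W => if (squash x.1.im : ℝ) ≤ 1 / 2 then
      (Sph.mk (A.uu x) (A.F1 x.2) : Sph 2 Z) else (Sph.mk (A.uu x) (A.F0 x.2) : Sph 2 Z) := by
    funext x
    unfold Dif.fn Dif.uu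
    split_ifs <;> rfl
  rw [e]
  refine Continuous.if_le ?_ ?_ ?_ continuous_const ?_
  · exact mk_continuous_pair A.continuous_uu (A.F1.continuous.comp continuous_snd)
  · exact mk_continuous_pair A.continuous_uu (A.F0.continuous.comp continuous_snd)
  · exact continuous_subtype_val.comp (continuous_squash_d60.comp
      (Complex.continuous_im.comp continuous_fst))
  · intro x hx
    by_cases hρ : A.ρ x.2 = 1
    · have hb : A.uu x ∈ Cube.boundary (Fin 2) := by
        refine ⟨1, Or.inr ?_⟩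
        change Set.projIcc 0 1 zero_le_one (eta x.1.im * A.ρ x.2) = 1
        have h1 : eta x.1.im = 1 := by
          unfold eta
          rw [hx]
          norm_num
        rw [h1, hρ, one_mul]
        exact Set.projIcc_right (zero_le_one' ℝ)
      rw [mk_eq_pt_of_boundary _ _ hb, mk_eq_pt_of_boundary _ _ hb]
    · rw [A.agree x.2 hρ]

theorem squash_bound60 {t δ : ℝ} (hδ : 0 < δ) (h1 : δ ≤ (squash t : ℝ))
    (h2 : δ ≤ 1 - (squash t : ℝ)) : |t| ≤ 1 / δ := by
  have h3 : (squash t : ℝ) = (1 + t / (1 + |t|)) / 2 := rfl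
  have h0 : 0 < 1 + |t| := by positivity
  rw [h3] at h1 h2
  have h4 : 2 * δ - 1 ≤ t / (1 + |t|) := by linarith
  have h5 : t / (1 + |t|) ≤ 1 - 2 * δ := by linarith
  rw [le_div_iff₀ h0] at h4
  rw [div_le_iff₀ h0] at h5
  rw [le_div_iff₀ hδ]
  rcases abs_cases t with ⟨h6, h7⟩ | ⟨h6, h7⟩
  · rw [h6] at h5 ⊢
    nlinarith
  · rw [h6] at h4 ⊢
    nlinarith

/-- The difference map tends to the base point at infinity. -/
theorem Dif.fn_infty (A : Dif W Z) : Tendsto A.fn (cocompact (LC.C.prod W)) (𝓝 (Sph 2 Z).pt) := by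
  intro U hU
  obtain ⟨V, hVU, hV, hpV⟩ := mem_nhds_iff.1 hU
  -- a neighbourhood of the boundary
  let N : Set ((Fin 2 → unitInterval) × Z) := {p | (Sph.mk p.1 p.2 : Sph 2 Z) ∈ V}
  have hN : IsOpen N := hV.preimage (mk_continuous_pair continuous_fst continuous_snd)
  have hB : IsCompact (Cube.boundary (Fin 2) : Set (Fin 2 → unitInterval)) := by
    apply IsClosed.isCompact
    have : (Cube.boundary (Fin 2) : Set (Fin 2 → unitInterval)) =
        ⋃ i : Fin 2, {y | y i = 0 ∨ y i = 1} := by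
      ext y
      simp [Cube.boundary]
    rw [this]
    refine isClosed_iUnion_of_finite fun i => ?_
    exact (isClosed_eq (continuous_apply i) continuous_const).union
      (isClosed_eq (continuous_apply i) continuous_const)
  obtain ⟨O, S', hO, -, hBO, hSS', hON⟩ := generalized_tube_lemma hB A.cpt hN (by
    rintro ⟨u, z⟩ ⟨hu, -⟩
    change (Sph.mk u z : Sph 2 Z) ∈ V
    rw [mk_eq_pt_of_boundary _ _ hu]
    exact hpV)
  have hfn : ∀ x, A.uu x ∈ O → A.fn x ∈ V := by
    intro x hx
    have h1 : A.fn x = Sph.mk (A.uu x) (if (squash x.1.im : ℝ) ≤ 1 / 2 then A.F1 x.2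
      else A.F0 x.2) := rfl
    rw [h1]
    have h2 : (if (squash x.1.im : ℝ) ≤ 1 / 2 then A.F1 x.2 else A.F0 x.2) ∈ A.S := by
      split_ifs
      · exact A.mem1 _
      · exact A.mem0 _
    exact hON (show (A.uu x, _) ∈ O ×ˢ S' from ⟨hx, hSS' h2⟩)
  -- the distance from the boundary
  have hK : IsCompact Oᶜ := hO.isClosed_compl.isCompact
  let φ : (Fin 2 → unitInterval) → ℝ := fun u =>
    min (min (u 0 : ℝ) (1 - u 0)) (u 1 : ℝ)
  have hφ : Continuous φ := by
    have h0 : ∀ i : Fin 2, Continuous fun u : Fin 2 → unitInterval => (u i : ℝ) := fun i =>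
      continuous_subtype_val.comp (continuous_apply i)
    exact ((h0 0).min (continuous_const.sub (h0 0))).min (h0 1)
  obtain ⟨δ, hδ0, hδ⟩ := hK.exists_forall_le' hφ.continuousOn (a := 0) (by
    intro u hu
    have hu' : ∀ i, ¬ (u i = 0 ∨ u i = 1) := fun i hi => hu (hBO ⟨i, hi⟩)
    have h0 : ∀ i, (0 : ℝ) < u i := fun i => by
      rcases (u i).2.1.lt_or_eq with h | h
      · exact h
      · exact absurd (Or.inl (Subtype.ext h.symm)) (hu' i)
    have h1 : (u 0 : ℝ) < 1 := by
      rcases (u 0).2.2.lt_or_eq with h | h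
      · exact h
      · exact absurd (Or.inr (Subtype.ext h)) (hu' 0)
    exact lt_min (lt_min (h0 0) (by linarith)) (h0 1))
  obtain ⟨C, hC, hCρ⟩ := mem_cocompact.1 (A.vanish (Iio_mem_nhds hδ0))
  refine mem_map.2 (mem_cocompact.2 ⟨Metric.closedBall (0 : ℂ) (1 / δ + 1 / (δ / 2)) ×ˢ C,
    (isCompact_closedBall _ _).prod hC, ?_⟩)
  rintro ⟨z, w⟩ hx
  by_contra hxU
  have hxO : A.uu (z, w) ∉ O := fun h => hxU (hVU (hfn _ h))
  have h1 := hδ _ hxO
  have h2 : δ ≤ (squash z.re : ℝ) := h1.trans ((min_le_left _ _).trans (min_le_left _ _))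
  have h3 : δ ≤ 1 - (squash z.re : ℝ) := h1.trans ((min_le_left _ _).trans (min_le_right _ _))
  have h4 : δ ≤ ((Set.projIcc 0 1 zero_le_one (eta z.im * A.ρ w) : unitInterval) : ℝ) :=
    h1.trans (min_le_right _ _)
  have h5 : δ ≤ eta z.im * A.ρ w := by
    by_contra h
    push Not at h
    rw [Set.coe_projIcc] at h4
    have : max 0 (min 1 (eta z.im * A.ρ w)) < δ := max_lt hδ0 ((min_le_right _ _).trans_lt h)
    linarith
  have hs0 := (squash z.im).2.1
  have hs1 := (squash z.im).2.2
  have he0 : 0 ≤ eta z.im := le_min (by linarith) (by linarith)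
  have he1 : eta z.im ≤ 1 := by
    unfold eta
    rcases le_total (squash z.im : ℝ) (1 / 2) with h | h
    · exact (min_le_left _ _).trans (by linarith)
    · exact (min_le_right _ _).trans (by linarith)
  have hr0 := A.nonneg w
  have hr1 := A.le_one w
  have h6 : δ ≤ eta z.im := by nlinarith
  have h7 : δ ≤ A.ρ w := by nlinarith
  have h8 : δ / 2 ≤ (squash z.im : ℝ) := by
    have := h6.trans (min_le_left _ _)
    linarith
  have h9 : δ / 2 ≤ 1 - (squash z.im : ℝ) := by
    have := h6.trans (min_le_right _ _)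
    linarith
  apply hx
  refine ⟨?_, ?_⟩
  · rw [mem_closedBall_zero_iff]
    refine (Complex.norm_le_abs_re_add_abs_im z).trans ?_
    exact add_le_add (squash_bound60 hδ0 h2 h3) (squash_bound60 (by linarith) h8 h9)
  · by_contra hwC
    have h10 := hCρ hwC
    change A.ρ w < δ at h10
    linarith

/-- the difference map -/
def Dif.E (A : Dif W Z) : PMap (LC.C.prod W) (Sph 2 Z) := ⟨A.fn, A.fn_cont, A.fn_infty⟩

/-- Homotopies of the data give homotopies of the difference maps. -/
theorem Dif.homotopic (A : Dif (LC.I.prod W) Z) (A0 A1 : Dif W Z)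
    (h0 : ∀ w, A.F1 ((0 : unitInterval), w) = A0.F1 w ∧ A.F0 ((0 : unitInterval), w) = A0.F0 w ∧
      A.ρ ((0 : unitInterval), w) = A0.ρ w)
    (h1 : ∀ w, A.F1 ((1 : unitInterval), w) = A1.F1 w ∧ A.F0 ((1 : unitInterval), w) = A1.F0 w ∧
      A.ρ ((1 : unitInterval), w) = A1.ρ w) : A0.E.Homotopic A1.E := by
  let e : LC.I.prod (LC.C.prod W) ≃ₜ LC.C.prod (LC.I.prod W) :=
    { toFun := fun x => (x.2.1, (x.1, x.2.2))
      invFun := fun x => (x.2.1, (x.1, x.2.2))
      left_inv := fun _ => rfl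
      right_inv := fun _ => rfl
      continuous_toFun := by fun_prop
      continuous_invFun := by fun_prop }
  refine ⟨A.E.comp (PMap.ofHomeo e), ?_, ?_⟩
  · rintro ⟨z, w⟩
    obtain ⟨a, b, c⟩ := h0 w
    change (Sph.mk (Fin.cons (squash z.re) (fun _ : Fin 1 => Set.projIcc 0 1 zero_le_one
      (eta z.im * A.ρ ((0 : unitInterval), w)))) (if (squash z.im : ℝ) ≤ 1 / 2 then
        A.F1 ((0 : unitInterval), w) else A.F0 ((0 : unitInterval), w)) : Sph 2 Z) = _
    rw [a, b, c]
    rfl
  · rintro ⟨z, w⟩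
    obtain ⟨a, b, c⟩ := h1 w
    change (Sph.mk (Fin.cons (squash z.re) (fun _ : Fin 1 => Set.projIcc 0 1 zero_le_one
      (eta z.im * A.ρ ((1 : unitInterval), w)))) (if (squash z.im : ℝ) ≤ 1 / 2 then
        A.F1 ((1 : unitInterval), w) else A.F0 ((1 : unitInterval), w)) : Sph 2 Z) = _
    rw [a, b, c]
    rfl

/-- Homotopy of the two maps with a fixed cut-off function. -/
theorem Dif.homotopic_of (A0 A1 : Dif W Z) (hρ : ∀ w, A0.ρ w = A1.ρ w)
    (H1 H0 : C(unitInterval × W, Z)) (S : Set Z) (hS : IsCompact S)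
    (hH : ∀ x, H1 x ∈ S ∧ H0 x ∈ S)
    (h01 : ∀ w, H1 (0, w) = A0.F1 w) (h00 : ∀ w, H0 (0, w) = A0.F0 w)
    (h11 : ∀ w, H1 (1, w) = A1.F1 w) (h10 : ∀ w, H0 (1, w) = A1.F0 w)
    (ha : ∀ t w, A0.ρ w ≠ 1 → H1 (t, w) = H0 (t, w)) : A0.E.Homotopic A1.E := by
  let A : Dif (LC.I.prod W) Z :=
    { F1 := H1
      F0 := H0
      ρ := ⟨fun x => A0.ρ x.2, A0.ρ.continuous.comp continuous_snd⟩
      nonneg := fun x => A0.nonneg x.2
      le_one := fun x => A0.le_one x.2
      vanish := by
        intro U hU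
        obtain ⟨C, hC, h⟩ := mem_cocompact.1 (A0.vanish hU)
        refine mem_map.2 (mem_cocompact.2 ⟨univ ×ˢ C, isCompact_univ.prod hC, ?_⟩)
        rintro ⟨t, w⟩ hx
        exact h fun hw => hx ⟨trivial, hw⟩
      agree := fun x hx => ha x.1 x.2 hx
      S := S
      cpt := hS
      mem1 := fun x => (hH x).1
      mem0 := fun x => (hH x).2 }
  refine Dif.homotopic A A0 A1 (fun w => ⟨h01 w, h00 w, rfl⟩) (fun w => ⟨h11 w, h10 w, hρ w⟩)

/-- The cut-off function does not matter. -/
theorem Dif.homotopic_cutoff (A0 A1 : Dif W Z) (h1 : ∀ w, A0.F1 w = A1.F1 w)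
    (h0 : ∀ w, A0.F0 w = A1.F0 w) : A0.E.Homotopic A1.E := by
  let A : Dif (LC.I.prod W) Z :=
    { F1 := ⟨fun x => A0.F1 x.2, A0.F1.continuous.comp continuous_snd⟩
      F0 := ⟨fun x => A0.F0 x.2, A0.F0.continuous.comp continuous_snd⟩
      ρ := ⟨fun x : unitInterval × W => (1 - (x.1 : ℝ)) * A0.ρ x.2 + (x.1 : ℝ) * A1.ρ x.2, by
        have e1 : Continuous fun x : unitInterval × W => (x.1 : ℝ) :=
          continuous_subtype_val.comp continuous_fst
        exact ((continuous_const.sub e1).mul (A0.ρ.continuous.comp continuous_snd)).add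
          (e1.mul (A1.ρ.continuous.comp continuous_snd))⟩
      nonneg := fun x => by
        have a1 := A0.nonneg x.2
        have a2 := A1.nonneg x.2
        have a3 : (0 : ℝ) ≤ (x.1 : ℝ) := (x.1 : unitInterval).2.1
        have a4 : (x.1 : ℝ) ≤ 1 := (x.1 : unitInterval).2.2
        change 0 ≤ (1 - ((x.1 : unitInterval) : ℝ)) * A0.ρ x.2 + ((x.1 : unitInterval) : ℝ) * A1.ρ x.2
        have := mul_nonneg (sub_nonneg.2 a4) a1
        have := mul_nonneg a3 a2
        linarith
      le_one := fun x => by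
        have a1 := A0.le_one x.2
        have a2 := A1.le_one x.2
        have a3 : (0 : ℝ) ≤ (x.1 : ℝ) := (x.1 : unitInterval).2.1
        have a4 : (x.1 : ℝ) ≤ 1 := (x.1 : unitInterval).2.2
        change (1 - ((x.1 : unitInterval) : ℝ)) * A0.ρ x.2 + ((x.1 : unitInterval) : ℝ) * A1.ρ x.2 ≤ 1
        nlinarith
      vanish := by
        rw [Metric.tendsto_nhds]
        intro ε hε
        have v0 := A0.vanish (Iio_mem_nhds hε)
        have v1 := A1.vanish (Iio_mem_nhds hε)
        obtain ⟨C0, hC0, g0⟩ := mem_cocompact.1 v0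
        obtain ⟨C1, hC1, g1⟩ := mem_cocompact.1 v1
        refine mem_cocompact.2 ⟨univ ×ˢ (C0 ∪ C1), isCompact_univ.prod (hC0.union hC1), ?_⟩
        rintro ⟨t, w⟩ hx
        have b0 : A0.ρ w < ε := g0 fun hw => hx ⟨trivial, Or.inl hw⟩
        have b1 : A1.ρ w < ε := g1 fun hw => hx ⟨trivial, Or.inr hw⟩
        have a1 := A0.nonneg w
        have a2 := A1.nonneg w
        have a3 : (0 : ℝ) ≤ (t : ℝ) := (t : unitInterval).2.1
        have a4 : (t : ℝ) ≤ 1 := (t : unitInterval).2.2
        change Dist.dist ((1 - ((t : unitInterval) : ℝ)) * A0.ρ w + ((t : unitInterval) : ℝ) * A1.ρ w)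
          (0 : ℝ) < ε
        rw [Real.dist_eq, sub_zero, abs_of_nonneg (by
          have := mul_nonneg (sub_nonneg.2 a4) a1
          have := mul_nonneg a3 a2
          linarith)]
        rcases a3.eq_or_lt with h | h
        · rw [← h]
          linarith
        · have : (t : ℝ) * A1.ρ w < t * ε := mul_lt_mul_of_pos_left b1 h
          have : (1 - (t : ℝ)) * A0.ρ w ≤ (1 - t) * ε :=
            mul_le_mul_of_nonneg_left b0.le (sub_nonneg.2 a4)
          linarith
      agree := fun x hx => by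
        by_cases c0 : A0.ρ x.2 = 1
        · by_cases c1 : A1.ρ x.2 = 1
          · exfalso
            apply hx
            change (1 - ((x.1 : unitInterval) : ℝ)) * A0.ρ x.2 + ((x.1 : unitInterval) : ℝ) * A1.ρ x.2 = 1
            rw [c0, c1]
            ring
          · change A0.F1 x.2 = A0.F0 x.2
            rw [h1, h0]
            exact A1.agree _ c1
        · exact A0.agree _ c0
      S := A0.S
      cpt := A0.cpt
      mem1 := fun x => A0.mem1 x.2
      mem0 := fun x => A0.mem0 x.2 }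
  refine Dif.homotopic A A0 A1 (fun w => ⟨rfl, rfl, ?_⟩) (fun w => ⟨h1 w, h0 w, ?_⟩)
  · change (1 - ((0 : unitInterval) : ℝ)) * A0.ρ w + ((0 : unitInterval) : ℝ) * A1.ρ w = A0.ρ w
    simp
  · change (1 - ((1 : unitInterval) : ℝ)) * A0.ρ w + ((1 : unitInterval) : ℝ) * A1.ρ w = A1.ρ w
    simp

end Pool.Agent.Helper1.Stab
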