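import Pool.Agent.Helper60.Stab.ClsAdd
import Pool.Agent.Helper56.Stab.RepJ
import Pool.Agent.Helper39.Stab.LadderAux

/-! Ladders of prespectra: the structure maps of `P'` are the `m`-th multiples of those of `P`
infinitely often; then `hP P'` is the localisation of `hP P` at the powers of `m`. -/

open CategoryTheory Topology Filter Set Opposite

noncomputable section

namespace Pool.Agent.Helper1.Stab

/-- Homeomorphisms of the even levels of two prespectra, such that the structure map of `P'` is the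
`m`-th multiple (in the group `[ℂ × W, P' (2n+2)]`) of the one of `P`, or equal to it. -/
structure Ladder (P P' : Prespectrum) (m : ℤ) where
  θ : ∀ n, P.sp (2 * n) ≃ₜ P'.sp (2 * n)
  θ_pt : ∀ n, θ n (P.sp (2 * n)).pt = (P'.sp (2 * n)).pt
  s : ℕ → ℕ
  step : ∀ n, s (n + 1) = s n ∨ s (n + 1) = s n + 1
  unb : ∀ N, ∃ n, N ≤ s n
  comm : ∀ (n : ℕ) (W : LC) (φ : PMap W (P.sp (2 * n))),
    (P'.sigC (n := 2 * n) (φ.post (θ n) (θ n).continuous (θ_pt n))).cls =
      zs (P'.sp (2 * n + 2)) (m ^ (s (n + 1) - s n))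
        (PMap.post (Y := P.sp (2 * (n + 1))) (Z := P'.sp (2 * (n + 1))) (θ (n + 1))
          (θ (n + 1)).continuous (θ_pt (n + 1)) (P.sigC φ)).cls

namespace Ladder
variable {P P' : Prespectrum} {m : ℤ}

/-- the shifted ladder -/
def up (L : Ladder P P' m) : Ladder P.up.up P'.up.up m where
  θ n := L.θ (n + 1)
  θ_pt n := L.θ_pt (n + 1)
  s n := L.s (n + 1)
  step n := L.step (n + 1)
  unb N := by
    obtain ⟨n, hn⟩ := L.unb N
    refine ⟨n, hn.trans ?_⟩
    rcases L.step n with h | h <;> omega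
  comm n W φ := L.comm (n + 1) W φ

/-- the ladder shifted `b` times -/
def uppL (L : Ladder P P' m) : ∀ b, Ladder (P.upp b) (P'.upp b) m
  | 0 => L
  | b + 1 => (uppL L b).up

/-- the homeomorphism on representatives -/
def th (L : Ladder P P' m) {b j : ℕ} {K : LC} (f : (P.upp b).Rep j K) : (P'.upp b).Rep j K :=
  PMap.post (Y := (P.upp b).sp (2 * j)) (Z := (P'.upp b).sp (2 * j)) ((L.uppL b).θ j)
    ((L.uppL b).θ j).continuous ((L.uppL b).θ_pt j) f

/-- the value of the localisation map on representatives -/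
def val (L : Ladder P P' m) {b j : ℕ} {K : Test} (f : (P.upp b).Rep j K.obj) :
    (((hT P').H.h b).obj (op K) : Type) :=
  m ^ ((L.uppL b).s j) • (hT P').cls (b := b) (j := j) (K := K) (L.th f)

/-- the relation of the two structure maps on classes -/
theorem cls_th (L : Ladder P P' m) {b j : ℕ} {K : Test} (f : (P.upp b).Rep j K.obj) :
    (hT P').cls (b := b) (j := j) (K := K) (L.th f) =
      m ^ ((L.uppL b).s (j + 1) - (L.uppL b).s j) •
        (hT P').cls (b := b) (j := j + 1) (K := K) (L.th f.next) := by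
  have h1 := (L.uppL b).comm j ((LC.cpow (Fin j)).prod K.obj) f
  have h2 := congrArg (hcl P' (b := b) (j := j) (K := K)) h1
  rw [hcl_cls] at h2
  have h3 := hcl_zs P' (b := b) (j := j) (K := K) (m ^ ((L.uppL b).s (j + 1) - (L.uppL b).s j))
    (PMap.post (Y := (P.upp b).sp (2 * (j + 1))) (Z := (P'.upp b).sp (2 * (j + 1)))
      ((L.uppL b).θ (j + 1)) ((L.uppL b).θ (j + 1)).continuous ((L.uppL b).θ_pt (j + 1))
      ((P.upp b).sigC f)).cls
  have h4 := h2.trans h3
  have h5 : (hT P').cls (b := b) (j := j + 1) (K := K) (L.th f).next =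
      (hT P').cls (b := b) (j := j) (K := K) (L.th f) := (hT P').cls_next (L.th f)
  rw [← h5]
  exact h4

theorem val_homotopic69 (L : Ladder P P' m) {b j : ℕ} {K : Test} {f g : (P.upp b).Rep j K.obj}
    (h : PMap.Homotopic f g) : L.val f = L.val g := by
  have h1 : PMap.Homotopic (L.th f) (L.th g) := by
    obtain ⟨F, h0, h1⟩ := h
    refine ⟨PMap.post (Y := (P.upp b).sp (2 * j)) (Z := (P'.upp b).sp (2 * j)) ((L.uppL b).θ j)
      ((L.uppL b).θ j).continuous ((L.uppL b).θ_pt j) F, fun k => ?_, fun k => ?_⟩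
    · exact congrArg ((L.uppL b).θ j) (h0 k)
    · exact congrArg ((L.uppL b).θ j) (h1 k)
  have h2 := (hT P').cls_homotopic (b := b) (j := j) (K := K) h1
  exact congrArg (fun t => m ^ ((L.uppL b).s j) • t) h2

theorem val_next69 (L : Ladder P P' m) {b j : ℕ} {K : Test} (f : (P.upp b).Rep j K.obj) :
    L.val f.next = L.val f := by
  have h1 := L.cls_th f
  have h2 := congrArg (fun t => m ^ ((L.uppL b).s j) • t) h1
  refine Eq.trans ?_ h2.symm
  have h3 : (L.uppL b).s (j + 1) = (L.uppL b).s j + ((L.uppL b).s (j + 1) - (L.uppL b).s j) := by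
    rcases (L.uppL b).step j with h | h <;> omega
  change m ^ ((L.uppL b).s (j + 1)) • (hT P').cls (b := b) (j := j + 1) (K := K) (L.th f.next) =
    m ^ ((L.uppL b).s j) • (m ^ ((L.uppL b).s (j + 1) - (L.uppL b).s j) •
      (hT P').cls (b := b) (j := j + 1) (K := K) (L.th f.next))
  rw [← mul_smul, ← pow_add, ← h3]

theorem th_comp69 (L : Ladder P P' m) {b j : ℕ} {K M : Test} (ψ : PMap K.obj M.obj.plus)
    (f : (P.upp b).Rep j M.obj) :
    L.th (K := K.obj) (PMap.comp f (PMap.ltens (LC.cpow (Fin j)) ψ)) =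
      PMap.comp (L.th f) (PMap.ltens (LC.cpow (Fin j)) ψ) := by
  ext ⟨v, k⟩
  change (L.uppL b).θ j (PMap.plus f (smashPt (LC.cpow (Fin j)) M.obj
        ((v : OnePoint (Fin j → ℂ)), ψ k))) = (L.th f).plus (smashPt (LC.cpow (Fin j)) M.obj
        ((v : OnePoint (Fin j → ℂ)), ψ k))
  rcases ψ k with _ | m
  · exact (L.uppL b).θ_pt j
  · rfl

theorem val_comp69 (L : Ladder P P' m) {b j : ℕ} {K M : Test} (ψ : PMap K.obj M.obj.plus)
    (f : (P.upp b).Rep j M.obj) :
    L.val (K := K) (PMap.comp f (PMap.ltens (LC.cpow (Fin j)) ψ)) =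
      pbT ((hT P').H.h b) ψ (L.val f) := by
  have h := (hT P').map_cls (b := b) (j := j) (K := K) (L := M) ψ (L.th f)
  have h1 := map_zsmul (((hT P').H.h b).map (tmk ψ).op).hom (m ^ ((L.uppL b).s j))
    ((hT P').cls (b := b) (j := j) (K := M) (L.th f))
  refine Eq.trans ?_ h1.symm
  refine congrArg (fun t => m ^ ((L.uppL b).s j) • t) ?_
  refine Eq.trans ?_ h.symm
  exact congrArg (fun g => (hT P').cls (b := b) (j := j) (K := K) g) (L.th_comp69 ψ f)

theorem th_sh69 (L : Ladder P P' m) {b j : ℕ} {K : LC} (f : (P.upp b).Rep (j + 1) K) :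
    L.th (b := b + 1) (j := j) (Levels.sh f) = Levels.sh (L.th f) := by
  ext ⟨v, z, k⟩
  rfl

theorem val_sig69 (L : Ladder P P' m) {b j : ℕ} {K : Test} (f : (P.upp b).Rep (j + 1) K.obj) :
    (((hT P').H.σ b).hom.app (op K)) (L.val f) =
      L.val (b := b + 1) (j := j) (K := Test.cx.obj K) (Levels.sh f) := by
  have h := Levels.sig_cls (G := P') (b := b) (j := j) (K := K) (L.th f)
  have h1 := map_zsmul (((hT P').H.σ b).hom.app (op K)).hom (m ^ ((L.uppL b).s (j + 1)))
    ((hT P').cls (b := b) (j := j + 1) (K := K) (L.th f))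
  refine h1.trans ?_
  refine congrArg (fun t => m ^ ((L.uppL b).s (j + 1)) • t) ?_
  refine h.trans ?_
  exact congrArg (fun g => (hT P').cls (b := b + 1) (j := j) (K := Test.cx.obj K) g)
    (L.th_sh69 f).symm

theorem val_nxt69 (L : Ladder P P' m) {b j : ℕ} {K : Test} (f : (P.upp b).Rep j K.obj) (n : ℕ) :
    L.val (Levels.nxt f n) = L.val f := by
  induction n with
  | zero => rfl
  | succ n ih => rw [← ih]; exact L.val_next69 (Levels.nxt f n)

theorem val_wd_le69 (L : Ladder P P' m) {b j d : ℕ} {K : Test} (f : (P.upp b).Rep j K.obj)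
    (g : (P.upp b).Rep (j + d) K.obj) (h : (hT P).cls f = (hT P).cls g) :
    L.val f = L.val g := by
  have h1 : (hT P).cls (Levels.nxt f d) = (hT P).cls g := (Levels.cls_nxt f d).trans h
  obtain ⟨n, hn⟩ := (hT P).cls_eq h1
  have h2 := L.val_homotopic69 (f := Levels.nxt (Levels.nxt f d) n) (g := Levels.nxt g n) hn
  rw [L.val_nxt69, L.val_nxt69, L.val_nxt69] at h2
  exact h2

theorem val_wd69 (L : Ladder P P' m) {b j j' : ℕ} {K : Test} (f : (P.upp b).Rep j K.obj)
    (g : (P.upp b).Rep j' K.obj) (h : (hT P).cls f = (hT P).cls g) :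
    L.val f = L.val g := by
  rcases le_total j j' with hj | hj
  · obtain ⟨d, rfl⟩ := Nat.exists_eq_add_of_le hj
    exact L.val_wd_le69 f g h
  · obtain ⟨d, rfl⟩ := Nat.exists_eq_add_of_le hj
    exact (L.val_wd_le69 g f h.symm).symm

/-- the value on a class -/
def fv69 (L : Ladder P P' m) (b : ℕ) (K : Test) (y : ((hT P).H.h b).obj (op K)) :
    ((((hT P').H.h b).obj (op K)) : Type) :=
  L.val ((hT P).cls_surj y 0).choose_spec.2.choose

theorem fv_cls69 (L : Ladder P P' m) {b j : ℕ} {K : Test} (f : (P.upp b).Rep j K.obj) :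
    L.fv69 b K ((hT P).cls f) = L.val f :=
  L.val_wd69 _ _ ((hT P).cls_surj ((hT P).cls f) 0).choose_spec.2.choose_spec.symm

theorem fv_nat69 (L : Ladder P P' m) (b : ℕ) (K M : Test) (ψ : PMap K.obj M.obj.plus)
    (y : ((hT P).H.h b).obj (op M)) :
    L.fv69 b K (pbT ((hT P).H.h b) ψ y) = pbT ((hT P').H.h b) ψ (L.fv69 b M y) := by
  obtain ⟨j, -, f, rfl⟩ := (hT P).cls_surj y 0
  have h := (hT P).map_cls (b := b) (j := j) (K := K) (L := M) ψ f
  rw [L.fv_cls69 f, ← L.val_comp69 ψ f, ← L.fv_cls69]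
  exact congrArg (L.fv69 b K) h

theorem fv_sig69 (L : Ladder P P' m) (b : ℕ) (K : Test) (y : ((hT P).H.h b).obj (op K)) :
    L.fv69 (b + 1) (Test.cx.obj K) (((hT P).H.σ b).hom.app (op K) y) =
      ((hT P').H.σ b).hom.app (op K) (L.fv69 b K y) := by
  obtain ⟨j, hj, f, rfl⟩ := (hT P).cls_surj y 1
  obtain ⟨j, rfl⟩ : ∃ i, j = i + 1 := ⟨j - 1, by omega⟩
  have h1 := Levels.sig_cls f
  rw [h1, L.fv_cls69 f]
  have h2 := L.fv_cls69 (b := b + 1) (j := j) (K := Test.cx.obj K) (Levels.sh f)
  rw [h2]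
  exact (L.val_sig69 f).symm

/-- PACKET LA. The morphism `q`. Follow the end of `Helper1/Stab/Yoneda.lean` (`val_homotopic`,
`val_comp`, `val_next`, `val_nxt`, `val_wd_le`, `val_wd`, `fv`, `fv_cls`, `fv_nat`, `fv_sig`, `yoneda`), with
`Ladder.val` in the place of `Levels.val`: (1) `val` is invariant under homotopy (`PMap.post` of the
homotopy, `cls_homotopic`); (2) `val f.next = val f`: `cls_th` and `s j + (s (j+1) - s j) = s (j+1)`
(`step`), `mul_smul`; (3) `L.th (f.comp (ltens _ ψ)) = (L.th f).comp (ltens _ ψ)` (`ext`, then cases of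
`smashPt .. : OnePoint`), so `val` is natural (`map_cls`, `map_zsmul` for `pbT` as in `pbT_add`);
(4) `sh (L.th f) = L.th (sh f)` is `rfl` after `ext` and `(L.uppL (b+1)).s j = (L.uppL b).s (j+1)` is
`rfl`, so `val` commutes with the suspension (`Levels.sig_cls`). (5) `fv` and additivity by
`add_of_nat` (`hP_red`, `hP_exact`), and `q` as in `Levels.yoneda`. -/
theorem exists_hom (L : Ladder P P' m) : ∃ q : hP.obj P ⟶ hP.obj P',
    ∀ (b j : ℕ) (K : Test) (f : (P.upp b).Rep j K.obj),
      (q.app b).app (op K) ((hT P).cls f) = L.val f := by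
  have add := add_of_nat (G := hP.obj P) (H := hP.obj P') (hP_red P) (hP_exact P') (hP_red P')
    (fun b K => L.fv69 b K) L.fv_nat69 L.fv_sig69
  let app : ∀ b, (hP.obj P).h b ⟶ (hP.obj P').h b := fun b =>
    { app := fun K => AddCommGrpCat.ofHom
        { toFun := L.fv69 b K.unop
          map_zero' := by
            have h := add b K.unop 0 0
            rw [add_zero] at h
            exact (left_eq_add.1 h)
          map_add' := add b K.unop }
      naturality := by
        intro K M f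
        ext y
        obtain ⟨φ, hφ⟩ : ∃ φ : PMap M.unop.obj K.unop.obj.plus, f = (tmk φ).op := by
          obtain ⟨f'⟩ := f
          obtain ⟨f'⟩ := f'
          revert f'
          refine HMap.ind fun φ => ?_
          exact ⟨φ, rfl⟩
        subst hφ
        exact L.fv_nat69 b M.unop K.unop φ y }
  refine ⟨GF.Hom.mk' app fun b K => ?_, fun b j K f => L.fv_cls69 f⟩
  ext y
  exact L.fv_sig69 b K.unop y

theorem mono56 (L : Ladder P P' m) {i j : ℕ} (h : i ≤ j) : L.s i ≤ L.s j := by
  induction j, h using Nat.le_induction with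
  | base => exact le_rfl
  | succ j _ ih => rcases L.step j with h | h <;> omega

theorem exists_step56 (L : Ladder P P' m) (N : ℕ) : ∃ n, N ≤ n ∧ L.s (n + 1) = L.s n + 1 := by
  by_contra hc
  push Not at hc
  have h1 : ∀ d, L.s (N + d) = L.s N := by
    intro d
    induction d with
    | zero => rfl
    | succ d ih =>
      have h2 := hc (N + d) (by omega)
      rcases L.step (N + d) with h | h
      · rw [← ih, ← h]; rfl
      · exact absurd h h2
  obtain ⟨n, hn⟩ := L.unb (L.s N + 1)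
  rcases le_total n N with h | h
  · have := L.mono56 h
    omega
  · obtain ⟨d, rfl⟩ := Nat.exists_eq_add_of_le h
    rw [h1] at hn
    omega

/-- the inverse homeomorphism on representatives -/
def thi56 (L : Ladder P P' m) {b j : ℕ} {K : LC} (f : (P'.upp b).Rep j K) : (P.upp b).Rep j K :=
  PMap.post (Y := (P'.upp b).sp (2 * j)) (Z := (P.upp b).sp (2 * j)) ((L.uppL b).θ j).symm
    ((L.uppL b).θ j).symm.continuous (by
      rw [← (L.uppL b).θ_pt j]
      exact ((L.uppL b).θ j).symm_apply_apply _) f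

theorem th_thi56 (L : Ladder P P' m) {b j : ℕ} {K : LC} (f : (P'.upp b).Rep j K) :
    L.th (L.thi56 f) = f := by
  ext x
  exact ((L.uppL b).θ j).apply_symm_apply _

/-- the relation of the structure maps at a good step -/
theorem cls_good56 (L : Ladder P P' m) {b j : ℕ} {K : Test} (f : (P'.upp b).Rep j K.obj)
    (h : (L.uppL b).s (j + 1) = (L.uppL b).s j + 1) :
    (hT P').cls (b := b) (j := j) (K := K) f =
      m • (hT P').cls (b := b) (j := j + 1) (K := K) (L.th (L.thi56 f).next) := by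
  have h1 := L.cls_th (b := b) (j := j) (K := K) (L.thi56 f)
  rw [h, Nat.add_sub_cancel_left, pow_one, th_thi56] at h1
  exact h1

theorem inj56 (L : Ladder P P' m) (b : ℕ) (K : Test)
    (y : (((hT P').H.h b).obj (op (Test.cx.obj K)) : Type)) (hy : m • y = 0) : y = 0 := by
  obtain ⟨j, -, f, rfl⟩ := (hT P').cls_surj (K := Test.cx.obj K) y 0
  obtain ⟨fm, hfm⟩ : ∃ fm : (P'.upp b).Rep j (LC.C.prod K.obj),
      rcl fm = mulJ m (rcl (Y := P') (b := b) (j := j) (A := LC.C.prod K.obj) f) :=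
    Quotient.exists_rep _
  obtain ⟨f0, hf0⟩ : ∃ f0 : (P'.upp b).Rep j (LC.C.prod K.obj),
      rcl f0 = zeroJ P' b j K.obj := Quotient.exists_rep _
  have e1 : (hT P').cls (b := b) (j := j) (K := Test.cx.obj K) fm = 0 := by
    have h1 := congrArg (clJ (Y := P') (b := b) (j := j) (K := Test.cx.obj K)) hfm
    rw [clJ_mul] at h1
    exact h1.trans hy
  have e2 : (hT P').cls (b := b) (j := j) (K := Test.cx.obj K) f0 = 0 := by
    have h1 := congrArg (clJ (Y := P') (b := b) (j := j) (K := Test.cx.obj K)) hf0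
    exact h1.trans clJ_zero
  obtain ⟨n, hn⟩ := (hT P').cls_eq (e1.trans e2.symm)
  have hA : ∀ n, rcl (Levels.nxt fm n) = mulJ m (rcl (Y := P') (b := b) (j := j + n)
      (A := LC.C.prod K.obj) (Levels.nxt f n)) := by
    intro n
    induction n with
    | zero => exact hfm
    | succ n ih =>
      have h1 := congrArg ((nextN P' b (j + n)).app (op (LC.C.prod K.obj))) ih
      rw [nat_mulJ] at h1
      exact h1
  have hB : ∀ n, rcl (Levels.nxt f0 n) = zeroJ P' b (j + n) K.obj := by
    intro n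
    induction n with
    | zero => exact hf0
    | succ n ih =>
      have h1 := congrArg ((nextN P' b (j + n)).app (op (LC.C.prod K.obj))) ih
      rw [nat_zeroJ] at h1
      exact h1
  have hC : ∀ d, mulJ m (rcl (Y := P') (b := b) (j := j + (n + d)) (A := LC.C.prod K.obj)
      (Levels.nxt f (n + d))) = zeroJ P' b (j + (n + d)) K.obj := by
    intro d
    induction d with
    | zero =>
      have h1 : rcl (Levels.nxt fm n) = rcl (Levels.nxt f0 n) := PMap.cls_eq.2 hn
      rw [hA, hB] at h1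
      exact h1
    | succ d ih =>
      have h1 := congrArg ((nextN P' b (j + (n + d))).app (op (LC.C.prod K.obj))) ih
      rw [nat_mulJ, nat_zeroJ] at h1
      exact h1
  obtain ⟨N, hN, hs⟩ := (L.uppL b).exists_step56 (j + n)
  obtain ⟨d, rfl⟩ : ∃ d, N = j + (n + d) := ⟨N - (j + n), by omega⟩
  have h1 := L.cls_good56 (b := b) (j := j + (n + d)) (K := Test.cx.obj K)
    (Levels.nxt f (n + d)) hs
  rw [Levels.cls_nxt] at h1
  rw [h1]
  -- transport
  let θ₁ := postN (Y := P') (Z := P) (b := b) (c := b) (j := j + (n + d))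
    ((L.uppL b).θ (j + (n + d))).symm ((L.uppL b).θ (j + (n + d))).symm.continuous (by
      rw [← (L.uppL b).θ_pt (j + (n + d))]
      exact ((L.uppL b).θ (j + (n + d))).symm_apply_apply _)
  let θ₂ := nextN P b (j + (n + d))
  let θ₃ := postN (Y := P) (Z := P') (b := b) (c := b) (j := j + (n + d) + 1)
    ((L.uppL b).θ (j + (n + d) + 1)) ((L.uppL b).θ (j + (n + d) + 1)).continuous
    ((L.uppL b).θ_pt (j + (n + d) + 1))
  have h2 := congrArg ((θ₁ ≫ θ₂ ≫ θ₃).app (op (LC.C.prod K.obj))) (hC d)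
  rw [nat_mulJ, nat_zeroJ] at h2
  have h3 := congrArg (clJ (Y := P') (b := b) (j := j + (n + d) + 1) (K := Test.cx.obj K)) h2
  rw [clJ_mul, clJ_zero] at h3
  exact h3

/-- PACKET LB. `m` acts bijectively on the target.
Surjective: `y = cls' ψ` for some `ψ` of stage `j`; by `unb` and `step` there is `n` with
`s (j + n + 1) = s (j + n) + 1` (`s = (L.uppL b).s`); replace `ψ` by `Levels.nxt ψ n` (`cls_nxt`), so
`s (j + 1) = s j + 1`. `ψ = L.th φ` for `φ = post θ⁻¹ ψ`, and `y = m • cls' (L.th φ.next)` by `cls_th`.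
Injective: by the suspension isomorphism (`sig_inj`) it is enough to treat the spaces `ℂ × K`
(`Test.cx.obj K`) for all `b`. For `A : LC` let `G_j (A) = [ℂ^j × A, Z]`, a functor `LCᵒᵖ ⥤ Type` with
`IsAddFun` (copy `repF`, `isAddFun_repF` in `RepF.lean`, with `PMap.ltens (LC.cpow (Fin j))` and the
homeomorphism `ℂ^j × (A ⊔ B) = (ℂ^j × A) ⊔ (ℂ^j × B)`). `G_j (ℂ × K)` is a group (`(isAddFun ..).grp K`).
(a) `cls : G_j (ℂ × K) → hP^b (ℂ × K)` (for `P` and `P'`) is additive: `cls_pinch` in `ClsAdd.lean` with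
`p = pinchK K`, `F = ` the copair; so it commutes with `m •`. (b) The maps `next` and
`post θ`, `post θ⁻¹` on homotopy classes are natural in `A`, so additive on `ℂ × K` (`IsAddFun.add_nat`).
Let `m • cls' ψ = 0`, `ψ` of stage `j` on `ℂ × K`, and `ψm` a representative of `m • [ψ]` in
`G_j (ℂ × K)`. By (a) `cls' ψm = 0 = cls' (PMap.zero ..)`, so by `cls_eq` `nxt ψm n` is null homotopic for
some `n`, hence for all larger `n` (`next` of the constant map is constant; `next` preserves homotopy),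
so we may assume `s (j + n + 1) = s (j + n) + 1`. Let `a = post θ⁻¹ (nxt ψ n)`. By (b) `m • [a] = 0` in
`G_(j+n)`. `cls' ψ = cls' (L.th a) = m • cls' (L.th a.next)` (`cls_th`), and by (a), (b) this is `cls'` of
`th (next (m • [a])) = th (next 0) = 0`. -/
theorem bijective (L : Ladder P P' m) (b : ℕ) (K : Test) :
    Function.Bijective (fun y : (((hT P').H.h b).obj (op K) : Type) => m • y) := by
  constructor
  · intro y y' h
    have h1 : m • (y - y') = 0 := by
      rw [smul_sub]
      exact sub_eq_zero.2 h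
    rw [← sub_eq_zero]
    apply sig_inj (hT P').H b K
    have h2 : ∀ x : ((hT P').H.h b).obj (op K), m • ((hT P').H.σ b).hom.app (op K) x =
      ((hT P').H.σ b).hom.app (op K) (m • x) := fun x => (map_zsmul _ m x).symm
    have h3 : m • ((hT P').H.σ b).hom.app (op K) (y - y') = 0 := by
      rw [h2, h1, map_zero]
    have h4 := L.inj56 (b + 1) K (((hT P').H.σ b).hom.app (op K) (y - y')) h3
    rw [h4, map_zero]
  · intro y
    obtain ⟨j, -, f, rfl⟩ := (hT P').cls_surj y 0
    obtain ⟨N, hN, hs⟩ := (L.uppL b).exists_step56 j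
    obtain ⟨d, rfl⟩ : ∃ d, N = j + d := ⟨N - j, by omega⟩
    have h1 := L.cls_good56 (b := b) (j := j + d) (K := K) (Levels.nxt f d) hs
    rw [Levels.cls_nxt] at h1
    exact ⟨_, h1.symm⟩

theorem null39 (L : Ladder P P' m) {b : ℕ} {K : Test} : ∀ (n j : ℕ)
    (g : (P.upp b).Rep (j + 1) K.obj), PMap.Homotopic (Levels.nxt (L.th g) n) (PMap.zero _ _) →
      ∃ N : ℕ, m ^ N • (hT P).cls (b := b) (j := j + 1) (K := K) g = 0 := by
  intro n
  induction n with
  | zero =>
    intro j g h
    refine ⟨0, ?_⟩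
    rw [pow_zero, one_smul, ← cls_zero39 P (b := b) (j := j + 1) (K := K)]
    refine (hT P).cls_homotopic ?_
    obtain ⟨H, h0, h1⟩ := h
    have hp : ((L.uppL b).θ (j + 1)).symm ((P'.upp b).sp (2 * (j + 1))).pt =
        ((P.upp b).sp (2 * (j + 1))).pt := by
      rw [← (L.uppL b).θ_pt (j + 1), Homeomorph.symm_apply_apply]
    refine ⟨PMap.post (Y := (P'.upp b).sp (2 * (j + 1))) (Z := (P.upp b).sp (2 * (j + 1)))
      ((L.uppL b).θ (j + 1)).symm ((L.uppL b).θ (j + 1)).symm.continuous hp H, fun x => ?_,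
      fun x => ?_⟩
    · change ((L.uppL b).θ (j + 1)).symm (H (0, x)) = g x
      rw [h0]
      exact ((L.uppL b).θ (j + 1)).symm_apply_apply _
    · change ((L.uppL b).θ (j + 1)).symm (H (1, x)) = _
      rw [h1]
      exact hp
  | succ n ih =>
    intro j g h
    have h1 := heq_null39 (by omega) _ _ (nxt_heq39 (L.th g) n) h
    obtain ⟨δ, hδ⟩ : ∃ δ, δ = (L.uppL b).s (j + 1 + 1) - (L.uppL b).s (j + 1) := ⟨_, rfl⟩
    have hc := (L.uppL b).comm (j + 1) ((LC.cpow (Fin (j + 1))).prod K.obj) g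
    rw [← hδ] at hc
    obtain ⟨g', hg'⟩ : ∃ g' : PMap (LC.C.prod ((LC.cpow (Fin (j + 1))).prod K.obj))
        ((P.upp b).sp (2 * (j + 1 + 1))),
        g'.cls = zs ((P.upp b).sp (2 * (j + 1 + 1))) (m ^ δ) ((P.upp b).sigC g).cls := by
      obtain ⟨y, hy⟩ : ∃ y, y = zs ((P.upp b).sp (2 * (j + 1 + 1))) (m ^ δ)
        ((P.upp b).sigC (n := 2 * (j + 1)) g).cls := ⟨_, rfl⟩
      revert y
      refine HMap.ind fun g' hy => ?_
      exact ⟨g', hy⟩
    have h2 : PMap.Homotopic (L.th g).next (L.th (unc (Y := P.upp b) g')) := by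
      have h3 : PMap.Homotopic ((P'.upp b).sigC (n := 2 * (j + 1)) (L.th g))
          (PMap.post (Y := (P.upp b).sp (2 * (j + 1 + 1))) (Z := (P'.upp b).sp (2 * (j + 1 + 1)))
            ((L.uppL b).θ (j + 1 + 1)) ((L.uppL b).θ (j + 1 + 1)).continuous
              ((L.uppL b).θ_pt (j + 1 + 1)) g') := by
        rw [← PMap.cls_eq]
        refine hc.trans ?_
        have h4 := zs_post39 (Z := (P.upp b).sp (2 * (j + 1 + 1)))
          (Z' := (P'.upp b).sp (2 * (j + 1 + 1))) ((L.uppL b).θ (j + 1 + 1))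
          ((L.uppL b).θ (j + 1 + 1)).continuous ((L.uppL b).θ_pt (j + 1 + 1)) (m ^ δ)
          ((P.upp b).sigC g).cls
        refine Eq.trans h4.symm ?_
        rw [← hg']
        rfl
      rw [← unc_sigC]
      exact h3.comp_left (PMap.ofHomeo (consH (j + 1) K.obj))
    obtain ⟨N, hN⟩ := ih (j + 1) (unc (Y := P.upp b) g')
      ((nxt_homotopic39 h2.symm n).trans h1)
    refine ⟨N + δ, ?_⟩
    have h5 : (hT P).cls (b := b) (j := j + 1 + 1) (K := K) (unc (Y := P.upp b) g') =
        m ^ δ • (hT P).cls (b := b) (j := j + 1) (K := K) g := by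
      have h6 := hcl_zs P (b := b) (j := j + 1) (K := K) (m ^ δ) ((P.upp b).sigC g).cls
      have h7 := congrArg (hcl P (b := b) (j := j + 1) (K := K)) hg'
      rw [hcl_cls] at h7
      refine h7.trans (h6.trans ?_)
      refine congrArg (fun t => m ^ δ • t) ?_
      exact (hT P).cls_next g
    rw [h5] at hN
    rw [pow_add, mul_smul]
    exact hN

theorem bijective_pow39 (L : Ladder P P' m) (b : ℕ) (K : Test) (n : ℕ) :
    Function.Bijective (fun y : (((hT P').H.h b).obj (op K) : Type) => m ^ n • y) := by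
  induction n with
  | zero =>
    have : (fun y : (((hT P').H.h b).obj (op K) : Type) => m ^ 0 • y) = id := by
      funext y
      rw [pow_zero, one_smul]
      rfl
    rw [this]
    exact Function.bijective_id
  | succ n ih =>
    have : (fun y : (((hT P').H.h b).obj (op K) : Type) => m ^ (n + 1) • y) =
        (fun y => m ^ n • y) ∘ (fun y => m • y) := by
      funext y
      rw [pow_succ, mul_smul]
      rfl
    rw [this]
    exact ih.comp (L.bijective b K)

/-- PACKET LC (may assume LA and LB). `GF.IsLoc` is `IsLocalizedModule (powers m)` for every `b`, `K`; its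
fields: (units) LB; (surj) `y = cls' ψ`, `ψ = L.th φ`, so `m ^ (s j) • y = q (cls φ)`;
(kernel) by additivity it is enough: `q x = 0` implies `m ^ N • x = 0` for some `N`.
`x = cls g`, `g` of stage `j + 1` (`cls_surj`). By LB `cls' (L.th g) = 0 = cls' 0`, so by `cls_eq`
`nxt (L.th g) n` is null homotopic. Claim, by induction on `n` for all `j`, `g`: then `m ^ N • cls g = 0` for
some `N`. `n = 0`: `g = post θ⁻¹ (L.th g)` is null homotopic. `n + 1`: (`nxt g (n+1) = nxt g.next n` up to a
cast `j + 1 + n = j + (n + 1)`; use `HEq` or state the claim with `PMap.Homotopic (nxt (L.th g) n) (nxt h n)`,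
`h` the constant map, unfolding the recursion from the other side.)
`(L.th g).next` is homotopic to `L.th (unc g')`, where `g'` represents `zs _ (m ^ δ) ((P.upp b).sigC g).cls`
(axiom `comm` of `L.uppL b` and naturality of `zs` for `PMap.post θ`: `IsAddFun.add_nat` for the natural
transformation `repF Z ⟶ repF Z'`), and `cls (unc g') = m ^ δ • cls g.next = m ^ δ • cls g` (`hcl_zs`,
`cls_next`). -/
theorem exists_loc (L : Ladder P P' m) : ∃ q : hP.obj P ⟶ hP.obj P',
    GF.IsLoc (Submonoid.powers m) q := by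
  obtain ⟨q, hq⟩ := L.exists_hom
  refine ⟨q, fun b K => ?_⟩
  have main : ∀ x₁ x₂ : (((hT P).H.h b).obj (op K) : Type),
      (q.app b).app (op K) x₁ = (q.app b).app (op K) x₂ → ∃ N : ℕ, m ^ N • x₁ = m ^ N • x₂ := by
    intro x₁ x₂ h
    have h0 : (q.app b).app (op K) (x₁ - x₂) = 0 :=
      (map_sub ((q.app b).app (op K)).hom x₁ x₂).trans (sub_eq_zero.2 h)
    obtain ⟨j, hj, g, hg⟩ := (hT P).cls_surj (b := b) (K := K) (x₁ - x₂) 1
    obtain ⟨j, rfl⟩ : ∃ i, j = i + 1 := ⟨j - 1, by omega⟩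
    rw [hg, hq] at h0
    have h1 : (hT P').cls (b := b) (j := j + 1) (K := K) (L.th g) = 0 := by
      have h2 := (L.bijective_pow39 b K ((L.uppL b).s (j + 1))).1
      apply h2
      change m ^ ((L.uppL b).s (j + 1)) • (hT P').cls (L.th g) = m ^ ((L.uppL b).s (j + 1)) • 0
      rw [smul_zero]
      exact h0
    rw [← cls_zero39 P' (b := b) (j := j + 1) (K := K)] at h1
    obtain ⟨n, hn⟩ := (hT P').cls_eq h1
    have h3 : PMap.Homotopic (Levels.nxt (L.th g) n) (PMap.zero _ _) := by
      have h4 := nxt_zero39 (Y := P') (b := b) (j := j + 1) (K := K.obj) n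
      rw [← h4]
      exact hn
    obtain ⟨N, hN⟩ := L.null39 n j g h3
    refine ⟨N, ?_⟩
    rw [← hg, smul_sub] at hN
    exact sub_eq_zero.1 hN
  constructor
  · rintro ⟨_, n, rfl⟩
    rw [Module.End.isUnit_iff]
    exact L.bijective_pow39 b K n
  · intro y
    obtain ⟨j, -, ψ, rfl⟩ := (hT P').cls_surj (b := b) (K := K) y 0
    have hp : ((L.uppL b).θ j).symm ((P'.upp b).sp (2 * j)).pt = ((P.upp b).sp (2 * j)).pt := by
      rw [← (L.uppL b).θ_pt j, Homeomorph.symm_apply_apply]
    let φ : (P.upp b).Rep j K.obj :=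
      PMap.post (Y := (P'.upp b).sp (2 * j)) (Z := (P.upp b).sp (2 * j))
        ((L.uppL b).θ j).symm ((L.uppL b).θ j).symm.continuous hp ψ
    have h1 : L.th φ = ψ := by
      ext x
      exact ((L.uppL b).θ j).apply_symm_apply _
    refine ⟨((hT P).cls φ, ⟨m ^ ((L.uppL b).s j), ⟨_, rfl⟩⟩), ?_⟩
    change m ^ ((L.uppL b).s j) • (hT P').cls ψ = (q.app b).app (op K) ((hT P).cls φ)
    rw [hq]
    unfold val
    rw [h1]
  · intro x₁ x₂ h
    obtain ⟨N, hN⟩ := main x₁ x₂ h
    exact ⟨⟨m ^ N, N, rfl⟩, hN⟩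

end Ladder

end Pool.Agent.Helper1.Stab
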